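import Mathlib

/-!
Algebra for symmetric sextic Freud string equation: monic polynomials given by a symmetric
three term recurrence, the functional they define, and the equivalence of the string equation with
the integration by parts identity for the functional.
-/

namespace Pool.Agent.Q162.Freud

open Polynomial

/-- monic polynomials given by the recurrence `P (n+2) = X P (n+1) - b (n+1) P n`. -/
noncomputable def P (b : ℕ → ℝ) : ℕ → ℝ[X]
  | 0 => 1
  | 1 => X
  | (n + 2) => X * P b (n + 1) - C (b (n + 1)) * P b n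

/-- the norms `h n = b 1 ⋯ b n`. -/
noncomputable def h (b : ℕ → ℝ) (n : ℕ) : ℝ := ∏ i ∈ Finset.range n, b (i + 1)

lemma h_zero (b : ℕ → ℝ) : h b 0 = 1 := by simp [h]

lemma h_succ (b : ℕ → ℝ) (n : ℕ) : h b (n + 1) = h b n * b (n + 1) := by
  simp [h, Finset.prod_range_succ]

lemma P_zero (b : ℕ → ℝ) : P b 0 = 1 := rfl
lemma P_one (b : ℕ → ℝ) : P b 1 = X := rfl
lemma P_add_two (b : ℕ → ℝ) (n : ℕ) :
    P b (n + 2) = X * P b (n + 1) - C (b (n + 1)) * P b n := rfl

lemma X_mul_P (b : ℕ → ℝ) (hb : b 0 = 0) (n : ℕ) :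
    X * P b n = P b (n + 1) + C (b n) * P b (n - 1) := by
  rcases n with _ | n
  · simp [P_zero, P_one, hb]
  · rw [P_add_two]; simp

lemma P_spec (b : ℕ → ℝ) (n : ℕ) :
    ((P b n).Monic ∧ (P b n).natDegree = n) ∧
      ((P b (n + 1)).Monic ∧ (P b (n + 1)).natDegree = n + 1) := by
  induction n with
  | zero => exact ⟨⟨monic_one, natDegree_one⟩, ⟨monic_X, natDegree_X⟩⟩
  | succ n ih =>
    obtain ⟨⟨h1, h2⟩, ⟨h3, h4⟩⟩ := ih
    refine ⟨⟨h3, h4⟩, ?_⟩
    have hX : (X * P b (n + 1)).Monic := monic_X.mul h3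
    have hXd : (X * P b (n + 1)).natDegree = n + 2 := by
      rw [monic_X.natDegree_mul h3, h4, natDegree_X]; ring
    have hlt : (C (b (n + 1)) * P b n).degree < (X * P b (n + 1)).degree := by
      rw [degree_eq_natDegree hX.ne_zero, hXd]
      rw [← smul_eq_C_mul]
      refine lt_of_le_of_lt (degree_smul_le _ _) ?_
      rw [degree_eq_natDegree h1.ne_zero, h2]
      exact_mod_cast (by omega : n < n + 2)
    rw [P_add_two]
    refine ⟨hX.sub_of_left hlt, ?_⟩
    rw [natDegree_sub_eq_left_of_natDegree_lt]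
    · exact hXd
    · rw [hXd]
      refine lt_of_le_of_lt (natDegree_C_mul_le _ _) ?_
      omega

lemma P_monic (b : ℕ → ℝ) (n : ℕ) : (P b n).Monic := (P_spec b n).1.1
lemma P_natDegree (b : ℕ → ℝ) (n : ℕ) : (P b n).natDegree = n := (P_spec b n).1.2
lemma P_degree (b : ℕ → ℝ) (n : ℕ) : (P b n).degree = n := by
  rw [degree_eq_natDegree (P_monic b n).ne_zero, P_natDegree]

/-- bounded degree extensionality. -/
lemma lin_ext_lt (Q : ℕ → ℝ[X]) (hQ : ∀ n, (Q n).Monic) (hd : ∀ n, (Q n).natDegree = n)
    (M : ℝ[X] →ₗ[ℝ] ℝ) (N : ℕ) (hM : ∀ n < N, M (Q n) = 0) (p : ℝ[X]) (hp : p.degree < N) :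
    M p = 0 := by
  induction N generalizing p with
  | zero =>
    have : p = 0 := by
      rw [← degree_eq_bot]
      simpa [Nat.WithBot.lt_zero_iff] using hp
    simp [this]
  | succ N ih =>
    have key : M (p - C (p.coeff N) * Q N) = 0 := by
      apply ih (fun n hn => hM n (by omega))
      rw [degree_lt_iff_coeff_zero]
      intro m hm
      rcases hm.eq_or_lt with rfl | hlt
      · rw [coeff_sub, coeff_C_mul]
        have : (Q N).coeff N = 1 := by
          have := hQ N
          rw [Monic, leadingCoeff, hd] at this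
          exact this
        rw [this]; ring
      · rw [coeff_sub, coeff_C_mul]
        have h1 : (Q N).coeff m = 0 := coeff_eq_zero_of_natDegree_lt (by rw [hd]; exact hlt)
        have h2 : p.coeff m = 0 := (degree_lt_iff_coeff_zero _ _).1 hp m (by omega)
        rw [h1, h2]; ring
    have h1 : M (C (p.coeff N) * Q N) = 0 := by
      rw [← smul_eq_C_mul, map_smul, hM N (by omega), smul_zero]
    have h2 : p = (p - C (p.coeff N) * Q N) + C (p.coeff N) * Q N := by ring
    rw [h2, map_add, key, h1, add_zero]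

lemma lin_ext (Q : ℕ → ℝ[X]) (hQ : ∀ n, (Q n).Monic) (hd : ∀ n, (Q n).natDegree = n)
    (M : ℝ[X] →ₗ[ℝ] ℝ) (hM : ∀ n, M (Q n) = 0) (p : ℝ[X]) : M p = 0 := by
  refine lin_ext_lt Q hQ hd M (p.natDegree + 1) (fun n _ => hM n) p ?_
  refine lt_of_le_of_lt degree_le_natDegree ?_
  exact_mod_cast Nat.lt_succ_self _

/-- normalised functional with respect to which the `P n`, `n ≥ 1`, vanish. -/
structure IsFun (b : ℕ → ℝ) (L : ℝ[X] →ₗ[ℝ] ℝ) : Prop where
  one : L 1 = 1
  P_pos : ∀ n, L (P b (n + 1)) = 0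

lemma IsFun.unique {b : ℕ → ℝ} {L L' : ℝ[X] →ₗ[ℝ] ℝ} (hL : IsFun b L) (hL' : IsFun b L') :
    L = L' := by
  refine LinearMap.ext fun p => ?_
  have : (L - L') p = 0 := by
    refine lin_ext (P b) (P_monic b) (P_natDegree b) (L - L') ?_ p
    intro n
    rcases n with _ | n
    · simp [P_zero, hL.one, hL'.one]
    · simp [hL.P_pos, hL'.P_pos]
  simpa [sub_eq_zero] using this

lemma C_mul_apply (L : ℝ[X] →ₗ[ℝ] ℝ) (c : ℝ) (p : ℝ[X]) : L (C c * p) = c * L p := by
  rw [← smul_eq_C_mul, map_smul, smul_eq_mul]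

lemma IsFun.gram {b : ℕ → ℝ} (hb : b 0 = 0) {L : ℝ[X] →ₗ[ℝ] ℝ} (hL : IsFun b L) (n : ℕ) :
    ∀ m, L (P b n * P b m) = if n = m then h b n else 0 := by
  have key : ∀ n, (∀ m, L (P b n * P b m) = if n = m then h b n else 0) ∧
      (∀ m, L (P b (n + 1) * P b m) = if n + 1 = m then h b (n + 1) else 0) := by
    intro n
    have rec1 : ∀ n m, L (P b (n + 1) * P b m) =
        L (P b n * P b (m + 1)) + b m * L (P b n * P b (m - 1)) - b n * L (P b (n - 1) * P b m) := by
      intro n m
      have e : P b (n + 1) * P b m = P b n * P b (m + 1) + C (b m) * (P b n * P b (m - 1))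
          - C (b n) * (P b (n - 1) * P b m) := by
        have h1 := X_mul_P b hb n
        have h2 := X_mul_P b hb m
        have h3 : P b (n + 1) = X * P b n - C (b n) * P b (n - 1) := by rw [h1]; ring
        have h4 : P b (m + 1) = X * P b m - C (b m) * P b (m - 1) := by rw [h2]; ring
        rw [h3, h4]; ring
      rw [e, map_sub, map_add, C_mul_apply, C_mul_apply]
    induction n with
    | zero =>
      have h0 : ∀ m, L (P b 0 * P b m) = if 0 = m then h b 0 else 0 := by
        intro m
        rcases m with _ | m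
        · simp [P_zero, hL.one, h_zero]
        · simp [P_zero, hL.P_pos]
      refine ⟨h0, ?_⟩
      intro m
      rw [rec1 0 m, h0, h0, hb]
      rcases m with _ | m
      · simp [hb]
      · rcases m with _ | m
        · simp [h_zero, h_succ]
        · simp
    | succ n ih =>
      obtain ⟨ih1, ih2⟩ := ih
      refine ⟨ih2, ?_⟩
      intro m
      rw [rec1 (n + 1) m, ih2, ih2]
      simp only [Nat.add_sub_cancel]
      rw [ih1]
      rcases m with _ | m
      · rw [if_neg (by omega : ¬ (n + 1 + 1 = 0)), if_neg (by omega : ¬ (n + 1 = 0 - 1)), hb]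
        by_cases h0 : n = 0
        · subst h0; simp [h_succ]; ring
        · rw [if_neg (by omega), if_neg h0]; ring
      · simp only [Nat.add_sub_cancel]
        by_cases h1 : n = m + 1
        · rw [if_pos (by omega), if_neg (by omega), if_pos h1, if_neg (by omega), h_succ]
          ring
        · by_cases h2 : n + 1 = m
          · rw [if_neg (by omega), if_pos h2, if_neg (by omega), if_pos (by omega), ← h2,
              h_succ b (n + 1)]
            ring
          · rw [if_neg (by omega), if_neg h2, if_neg h1, if_neg (by omega)]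
            ring
  exact (key n).1

end Pool.Agent.Q162.Freud
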