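import Mathlib

/-!
Quadrature-limit argument, part 1: sums over quadrature nodes of `f' - V' f` tend to zero for every
Schwartz function `f`.
-/

namespace Pool.Agent.Q162.Freud

open MeasureTheory Filter Topology Finset
open scoped Real SchwartzMap FourierTransform

/-- remainder of the exponential series along the imaginary axis -/
lemma exp_rem_nonneg (s : ℂ) (hs : s.re = 0) (hs1 : ‖s‖ ≤ 1) (K : ℕ) :
    ∀ y : ℝ, 0 ≤ y → ‖Complex.exp (s * y) - ∑ j ∈ range K, (s * y) ^ j / (j.factorial : ℂ)‖
      ≤ y ^ K / (K.factorial : ℝ) := by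
  induction K with
  | zero =>
    intro y hy
    simp only [range_zero, sum_empty, sub_zero, pow_zero, Nat.factorial_zero, Nat.cast_one, div_one]
    rw [Complex.norm_exp]
    simp [hs]
  | succ K ih =>
    intro y hy
    have hd : ∀ x : ℝ, HasDerivAt (fun x : ℝ => Complex.exp (s * x)
        - ∑ j ∈ range (K + 1), (s * x) ^ j / (j.factorial : ℂ))
        (s * (Complex.exp (s * x) - ∑ j ∈ range K, (s * x) ^ j / (j.factorial : ℂ))) x := by
      intro x
      have hl : HasDerivAt (fun x : ℝ => s * (x : ℂ)) s x := by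
        simpa using (Complex.ofRealCLM.hasDerivAt (x := x)).const_mul s
      have h1 : HasDerivAt (fun x : ℝ => Complex.exp (s * x)) (Complex.exp (s * x) * s) x :=
        hl.cexp
      have h2 : HasDerivAt (fun x : ℝ => ∑ j ∈ range (K + 1), (s * (x : ℂ)) ^ j / (j.factorial : ℂ))
          (∑ j ∈ range (K + 1), ((j : ℂ) * (s * x) ^ (j - 1) * s) / (j.factorial : ℂ)) x := by
        apply HasDerivAt.fun_sum
        intro j _
        exact (hl.pow j).div_const _
      have h3 := h1.fun_sub h2
      refine h3.congr_deriv ?_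
      symm
      rw [Finset.sum_range_succ', mul_sub, Finset.mul_sum]
      congr 1
      · ring
      · simp only [Nat.cast_zero, zero_mul, zero_div, add_zero, Nat.add_sub_cancel]
        refine Finset.sum_congr rfl fun j _ => ?_
        rw [Nat.factorial_succ]
        have h4 : ((j : ℂ) + 1) ≠ 0 := by exact_mod_cast Nat.succ_ne_zero j
        have h5 : (j.factorial : ℂ) ≠ 0 := by exact_mod_cast Nat.factorial_ne_zero j
        push_cast
        field_simp
    have hB : ∀ x : ℝ, HasDerivAt (fun x : ℝ => x ^ (K + 1) / ((K + 1).factorial : ℝ))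
        (x ^ K / (K.factorial : ℝ)) x := by
      intro x
      have h1 := (hasDerivAt_pow (K + 1) x).div_const ((K + 1).factorial : ℝ)
      refine h1.congr_deriv ?_
      rw [Nat.factorial_succ, Nat.add_sub_cancel]
      have h4 : ((K : ℝ) + 1) ≠ 0 := by positivity
      have h5 : (K.factorial : ℝ) ≠ 0 := by exact_mod_cast Nat.factorial_ne_zero K
      push_cast
      field_simp
    have key := image_norm_le_of_norm_deriv_right_le_deriv_boundary (a := 0) (b := y)
      (f := fun x : ℝ => Complex.exp (s * x)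
        - ∑ j ∈ range (K + 1), (s * x) ^ j / (j.factorial : ℂ))
      (fun x _ => (hd x).continuousAt.continuousWithinAt)
      (fun x _ => (hd x).hasDerivWithinAt)
      (B := fun x : ℝ => x ^ (K + 1) / ((K + 1).factorial : ℝ)) ?_ hB ?_
    · exact key ⟨hy, le_refl _⟩
    · simp [Finset.sum_range_succ']
    · intro x hx
      rw [norm_mul]
      calc ‖s‖ * _ ≤ 1 * _ := mul_le_mul_of_nonneg_right hs1 (norm_nonneg _)
        _ ≤ _ := by rw [one_mul]; exact ih x hx.1

lemma exp_rem (y : ℝ) (K : ℕ) :
    ‖Complex.exp (Complex.I * y) - ∑ j ∈ range K, (Complex.I * y) ^ j / (j.factorial : ℂ)‖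
      ≤ |y| ^ K / (K.factorial : ℝ) := by
  rcases le_total 0 y with hy | hy
  · rw [abs_of_nonneg hy]
    exact exp_rem_nonneg Complex.I (by simp) (by simp) K y hy
  · have h := exp_rem_nonneg (-Complex.I) (by simp) (by simp) K (-y) (by linarith)
    rw [abs_of_nonpos hy]
    have e : (-Complex.I) * ((-y : ℝ) : ℂ) = Complex.I * y := by push_cast; ring
    rw [e] at h
    exact h

/-- moments with quadrature nodes -/
structure Quad (τ t : ℝ) (m : ℕ → ℝ) (w l : (N : ℕ) → Fin (N + 1) → ℝ) : Prop where
  m0 : m 0 = 1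
  odd : ∀ k, m (2 * k + 1) = 0
  rec5 : ∀ j, 6 * m (j + 5) - 4 * τ * m (j + 3) - 2 * t * m (j + 1) = j * m (j - 1)
  hw : ∀ N i, 0 ≤ w N i
  hq : ∀ N, ∀ k ≤ N, m k = ∑ i, w N i * l N i ^ k

variable {τ t : ℝ} {m : ℕ → ℝ} {w l : (N : ℕ) → Fin (N + 1) → ℝ}

lemma Quad.even_nonneg (H : Quad τ t m w l) (k : ℕ) : 0 ≤ m (2 * k) := by
  rw [H.hq (2 * k) (2 * k) le_rfl]
  exact Finset.sum_nonneg fun i _ => mul_nonneg (H.hw _ _) (by rw [pow_mul]; positivity)

lemma Quad.growth (H : Quad τ t m w l) : ∃ B C : ℝ, 1 ≤ B ∧ 0 ≤ C ∧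
    ∀ k, m (2 * k) ≤ C * B ^ k * (k.factorial : ℝ) := by
  set B : ℝ := 2 + 2 * |τ| + 2 * |t| with hB
  set C : ℝ := 1 + m 2 + m 4 with hC
  have h2 : 0 ≤ m 2 := H.even_nonneg 1
  have h4 : 0 ≤ m 4 := H.even_nonneg 2
  have hτ := abs_nonneg τ
  have ht := abs_nonneg t
  have hB2 : 2 ≤ B := by rw [hB]; linarith
  have hC0 : 1 ≤ C := by rw [hC]; linarith
  refine ⟨B, C, by linarith, by linarith, ?_⟩
  have key : ∀ k, m (2 * k) ≤ C * B ^ k * (k.factorial : ℝ) ∧
      m (2 * (k + 1)) ≤ C * B ^ (k + 1) * ((k + 1).factorial : ℝ) ∧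
      m (2 * (k + 2)) ≤ C * B ^ (k + 2) * ((k + 2).factorial : ℝ) := by
    intro k
    induction k with
    | zero =>
      refine ⟨?_, ?_, ?_⟩
      · simp [H.m0]; linarith
      · simp only [Nat.factorial, zero_add, mul_one, pow_one, Nat.cast_one]
        calc m 2 ≤ C := by rw [hC]; linarith
          _ ≤ C * B := by nlinarith
      · simp only [Nat.factorial, zero_add]
        calc m (2 * 2) ≤ C := by rw [hC]; norm_num; linarith
          _ ≤ C * B ^ 2 * ((2 * (1 * 1) : ℕ) : ℝ) := by push_cast; nlinarith [mul_nonneg (by linarith : 0 ≤ C) (by nlinarith : 0 ≤ B ^ 2 * 2 - 1)]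
    | succ k ih =>
      obtain ⟨i0, i1, i2⟩ := ih
      refine ⟨i1, i2, ?_⟩
      have hr := H.rec5 (2 * k + 1)
      have e1 : 2 * k + 1 + 5 = 2 * (k + 3) := by ring
      have e2 : 2 * k + 1 + 3 = 2 * (k + 2) := by ring
      have e3 : 2 * k + 1 + 1 = 2 * (k + 1) := by ring
      have e4 : 2 * k + 1 - 1 = 2 * k := by omega
      rw [e1, e2, e3, e4] at hr
      have n0 := H.even_nonneg k
      have n1 := H.even_nonneg (k + 1)
      have n2 := H.even_nonneg (k + 2)
      have f0 : (1 : ℝ) ≤ (k.factorial : ℝ) := by exact_mod_cast Nat.factorial_pos k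
      have f1 : ((k + 1).factorial : ℝ) = (k + 1) * (k.factorial : ℝ) := by
        rw [Nat.factorial_succ]; push_cast; ring
      have f2 : ((k + 2).factorial : ℝ) = (k + 2) * ((k + 1).factorial : ℝ) := by
        rw [Nat.factorial_succ]; push_cast; ring
      have f3 : ((k + 1 + 2).factorial : ℝ) = (k + 3) * ((k + 2).factorial : ℝ) := by
        rw [Nat.factorial_succ]; push_cast; ring
      have hk : (0 : ℝ) ≤ k := Nat.cast_nonneg k
      set F1 : ℝ := ((k + 1).factorial : ℝ) with hF1
      set F2 : ℝ := ((k + 2).factorial : ℝ) with hF2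
      have hF1p : 1 ≤ F1 := by rw [hF1]; exact_mod_cast Nat.factorial_pos _
      have hF2p : F1 ≤ F2 := by rw [f2]; nlinarith
      have hBk : (0 : ℝ) < B ^ k := by positivity
      -- bound the three contributions
      have b1 : 4 * τ * m (2 * (k + 2)) ≤ 2 * (C * B ^ (k + 3) * F2) := by
        calc 4 * τ * m (2 * (k + 2)) ≤ 4 * |τ| * m (2 * (k + 2)) := by
              apply mul_le_mul_of_nonneg_right _ n2
              linarith [le_abs_self τ]
          _ ≤ (2 * B) * (C * B ^ (k + 2) * F2) := by
              apply mul_le_mul _ i2 n2 (by positivity)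
              rw [hB]; linarith
          _ = 2 * (C * B ^ (k + 3) * F2) := by ring
      have b2 : 2 * t * m (2 * (k + 1)) ≤ C * B ^ (k + 3) * F2 := by
        calc 2 * t * m (2 * (k + 1)) ≤ 2 * |t| * m (2 * (k + 1)) := by
              apply mul_le_mul_of_nonneg_right _ n1
              linarith [le_abs_self t]
          _ ≤ B * (C * B ^ (k + 1) * F1) := by
              apply mul_le_mul _ i1 n1 (by positivity)
              rw [hB]; linarith
          _ = C * B ^ (k + 2) * F1 := by ring
          _ ≤ C * B ^ (k + 3) * F2 := by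
              apply mul_le_mul _ hF2p (by linarith) (by positivity)
              apply mul_le_mul_of_nonneg_left _ (by linarith)
              exact pow_le_pow_right₀ (by linarith) (by omega)
      have b3 : ((2 * k + 1 : ℕ) : ℝ) * m (2 * k) ≤ 2 * (C * B ^ (k + 3) * F2) := by
        calc ((2 * k + 1 : ℕ) : ℝ) * m (2 * k) ≤ (2 * (k + 1)) * (C * B ^ k * (k.factorial : ℝ)) := by
              apply mul_le_mul _ i0 n0 (by positivity)
              push_cast; linarith
          _ = 2 * (C * B ^ k * F1) := by rw [f1]; ring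
          _ ≤ 2 * (C * B ^ (k + 3) * F2) := by
              apply mul_le_mul_of_nonneg_left _ (by norm_num)
              apply mul_le_mul _ hF2p (by linarith) (by positivity)
              apply mul_le_mul_of_nonneg_left _ (by linarith)
              exact pow_le_pow_right₀ (by linarith) (by omega)
      have hnn : 0 ≤ C * B ^ (k + 3) * F2 := by positivity
      have hm : m (2 * (k + 3)) ≤ C * B ^ (k + 3) * F2 := by linarith
      have e5 : 2 * (k + 1 + 2) = 2 * (k + 3) := by ring
      rw [e5, f3]
      calc m (2 * (k + 3)) ≤ C * B ^ (k + 3) * F2 := hm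
        _ ≤ C * B ^ (k + 1 + 2) * ((k + 3) * F2) := by
          rw [show k + 1 + 2 = k + 3 by ring]
          apply mul_le_mul_of_nonneg_left _ (by positivity)
          nlinarith
  intro k
  exact (key k).1

end Pool.Agent.Q162.Freud
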