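import Pool.Agent.Q162.Freud.Ana1

namespace Pool.Agent.Q162.Freud

open MeasureTheory Filter Topology Finset
open scoped Real SchwartzMap FourierTransform

variable {τ t : ℝ} {m : ℕ → ℝ} {w l : (N : ℕ) → Fin (N + 1) → ℝ}

/-- derivative of the potential as a function -/
def dVf (τ t x : ℝ) : ℝ := 6 * x ^ 5 - 4 * τ * x ^ 3 - 2 * t * x

/-- exponential test -/
noncomputable def EN (τ t : ℝ) (w l : (N : ℕ) → Fin (N + 1) → ℝ) (N : ℕ) (a : ℝ) : ℂ :=
  ∑ i, (w N i : ℂ) * ((Complex.I * a - dVf τ t (l N i)) * Complex.exp (Complex.I * (a * l N i : ℝ)))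

lemma dVf_bound (τ t x : ℝ) : |dVf τ t x| ≤ (6 + 4 * |τ| + 2 * |t|) * (1 + x ^ 6) := by
  have h0 : (0:ℝ) ≤ x ^ 6 := by positivity
  have hx : 0 ≤ |x| := abs_nonneg x
  have e6 : x ^ 6 = |x| ^ 6 := by rw [show x ^ 6 = (x ^ 2) ^ 3 by ring, ← sq_abs]; ring
  have h5 : |x| ^ 5 ≤ 1 + x ^ 6 := by
    rw [e6]
    rcases le_total |x| 1 with h | h
    · have : |x| ^ 5 ≤ 1 := pow_le_one₀ hx h
      have : 0 ≤ |x| ^ 6 := by positivity
      linarith
    · have : |x| ^ 5 ≤ |x| ^ 6 := pow_le_pow_right₀ h (by norm_num)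
      linarith
  have h3 : |x| ^ 3 ≤ 1 + x ^ 6 := by
    rw [e6]
    rcases le_total |x| 1 with h | h
    · have : |x| ^ 3 ≤ 1 := pow_le_one₀ hx h
      have : 0 ≤ |x| ^ 6 := by positivity
      linarith
    · have : |x| ^ 3 ≤ |x| ^ 6 := pow_le_pow_right₀ h (by norm_num)
      linarith
  have h1 : |x| ≤ 1 + x ^ 6 := by
    rw [e6]
    rcases le_total |x| 1 with h | h
    · have : 0 ≤ |x| ^ 6 := by positivity
      linarith
    · have : |x| ^ 1 ≤ |x| ^ 6 := pow_le_pow_right₀ h (by norm_num)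
      linarith
  calc |dVf τ t x| ≤ |6 * x ^ 5| + |4 * τ * x ^ 3| + |2 * t * x| := by
        unfold dVf
        exact (abs_sub _ _).trans (add_le_add_left (abs_sub _ _) _)
    _ = 6 * |x| ^ 5 + 4 * |τ| * |x| ^ 3 + 2 * |t| * |x| := by
        simp [abs_mul, abs_pow]
    _ ≤ 6 * (1 + x ^ 6) + 4 * |τ| * (1 + x ^ 6) + 2 * |t| * (1 + x ^ 6) := by
        gcongr
    _ = _ := by ring

lemma EN_bound (H : Quad τ t m w l) (N : ℕ) (hN : 6 ≤ N) (a : ℝ) :
    ‖EN τ t w l N a‖ ≤ |a| + (6 + 4 * |τ| + 2 * |t|) * (1 + m 6) := by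
  unfold EN
  have h0 := H.hq N 0 (by omega)
  have h6 := H.hq N 6 hN
  simp only [pow_zero, mul_one] at h0
  rw [H.m0] at h0
  calc ‖∑ i, (w N i : ℂ) * ((Complex.I * a - dVf τ t (l N i)) *
        Complex.exp (Complex.I * (a * l N i : ℝ)))‖
      ≤ ∑ i, w N i * (|a| + (6 + 4 * |τ| + 2 * |t|) * (1 + l N i ^ 6)) := by
        refine (norm_sum_le _ _).trans (Finset.sum_le_sum fun i _ => ?_)
        rw [norm_mul, Complex.norm_real, Real.norm_of_nonneg (H.hw N i), norm_mul]
        have e1 : ‖Complex.exp (Complex.I * (a * l N i : ℝ))‖ = 1 := by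
          rw [mul_comm, Complex.norm_exp_ofReal_mul_I]
        rw [e1, mul_one]
        apply mul_le_mul_of_nonneg_left _ (H.hw N i)
        refine (norm_sub_le _ _).trans ?_
        rw [norm_mul, Complex.norm_I, one_mul, Complex.norm_real, Complex.norm_real]
        exact add_le_add (le_of_eq rfl) (dVf_bound _ _ _)
    _ = |a| * (∑ i, w N i) + (6 + 4 * |τ| + 2 * |t|) * (∑ i, w N i)
        + (6 + 4 * |τ| + 2 * |t|) * (∑ i, w N i * l N i ^ 6) := by
        rw [Finset.mul_sum, Finset.mul_sum, Finset.mul_sum, ← Finset.sum_add_distrib,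
          ← Finset.sum_add_distrib]
        refine Finset.sum_congr rfl fun i _ => ?_
        ring
    _ = _ := by rw [← h0, ← h6]; ring

lemma EN_taylor (H : Quad τ t m w l) (N k : ℕ) (hN : 2 * k + 8 ≤ N) (a : ℝ) :
    ‖EN τ t w l N a‖ ≤ (|a| + (6 + 4 * |τ| + 2 * |t|)) *
      ((a ^ 2) ^ (k + 1) * (m (2 * (k + 1)) + m (2 * (k + 4))) / ((2 * k + 2).factorial : ℝ)) := by
  have hpoly : ∑ i, (w N i : ℂ) * ((Complex.I * a - dVf τ t (l N i)) *
      ∑ j ∈ range (2 * k + 2), (Complex.I * (a * l N i : ℝ)) ^ j / (j.factorial : ℂ)) = 0 := by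
    have hmq : ∀ j, j ≤ N → (m j : ℂ) = ∑ i, (w N i : ℂ) * (l N i : ℂ) ^ j := by
      intro j hj
      rw [H.hq N j hj]; push_cast; rfl
    set T : ℕ → ℂ := fun j => (Complex.I * a) ^ j * j * (m (j - 1) : ℂ) / (j.factorial : ℂ) with hT
    have h1 : ∑ i, (w N i : ℂ) * ((Complex.I * a - dVf τ t (l N i)) *
        ∑ j ∈ range (2 * k + 2), (Complex.I * (a * l N i : ℝ)) ^ j / (j.factorial : ℂ))
        = ∑ j ∈ range (2 * k + 2), (T (j + 1) - T j) := by
      simp_rw [Finset.mul_sum]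
      rw [Finset.sum_comm]
      refine Finset.sum_congr rfl fun j hj => ?_
      have hj' : j < 2 * k + 2 := Finset.mem_range.1 hj
      have r := H.rec5 j
      have r' : (6 * m (j + 5) - 4 * τ * m (j + 3) - 2 * t * m (j + 1) : ℂ) = j * m (j - 1) := by
        exact_mod_cast r
      have h2 : ∑ i, (w N i : ℂ) * ((Complex.I * a - dVf τ t (l N i)) *
          ((Complex.I * (a * l N i : ℝ)) ^ j / (j.factorial : ℂ)))
          = (Complex.I * a) ^ j / (j.factorial : ℂ) * (Complex.I * a * (∑ i, (w N i : ℂ) * (l N i : ℂ) ^ j)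
            - (6 * (∑ i, (w N i : ℂ) * (l N i : ℂ) ^ (j + 5))
              - 4 * τ * (∑ i, (w N i : ℂ) * (l N i : ℂ) ^ (j + 3))
              - 2 * t * (∑ i, (w N i : ℂ) * (l N i : ℂ) ^ (j + 1)))) := by
        simp only [Finset.mul_sum, ← Finset.sum_sub_distrib]
        refine Finset.sum_congr rfl fun i _ => ?_
        simp only [dVf]
        push_cast
        rw [show Complex.I * ((a : ℂ) * (l N i : ℂ)) = (Complex.I * a) * (l N i : ℂ) by ring, mul_pow]
        ring
      rw [h2, ← hmq j (by omega), ← hmq (j + 5) (by omega), ← hmq (j + 3) (by omega),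
        ← hmq (j + 1) (by omega), r', hT]
      simp only [Nat.add_sub_cancel]
      rw [Nat.factorial_succ]
      have h4 : ((j : ℂ) + 1) ≠ 0 := by exact_mod_cast Nat.succ_ne_zero j
      have h5 : (j.factorial : ℂ) ≠ 0 := by exact_mod_cast Nat.factorial_ne_zero j
      push_cast
      field_simp
      ring
    rw [h1, Finset.sum_range_sub, hT]
    have : m (2 * k + 1) = 0 := H.odd k
    simp [this]
  unfold EN
  have hsplit : ∑ i, (w N i : ℂ) * ((Complex.I * a - dVf τ t (l N i)) *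
        Complex.exp (Complex.I * (a * l N i : ℝ)))
      = ∑ i, (w N i : ℂ) * ((Complex.I * a - dVf τ t (l N i)) *
        (Complex.exp (Complex.I * (a * l N i : ℝ)) -
          ∑ j ∈ range (2 * k + 2), (Complex.I * (a * l N i : ℝ)) ^ j / (j.factorial : ℂ))) := by
    rw [← sub_zero (∑ i, (w N i : ℂ) * ((Complex.I * a - dVf τ t (l N i)) *
        Complex.exp (Complex.I * (a * l N i : ℝ)))), ← hpoly, ← Finset.sum_sub_distrib]
    refine Finset.sum_congr rfl fun i _ => ?_
    ring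
  rw [hsplit]
  set c : ℝ := |a| + (6 + 4 * |τ| + 2 * |t|) with hc
  have hc0 : 0 ≤ c := by positivity
  have q1 := H.hq N (2 * (k + 1)) (by omega)
  have q2 := H.hq N (2 * (k + 4)) (by omega)
  calc _ ≤ ∑ i, w N i * (c * (1 + l N i ^ 6) *
        ((a * l N i) ^ (2 * k + 2) / ((2 * k + 2).factorial : ℝ))) := by
        refine (norm_sum_le _ _).trans (Finset.sum_le_sum fun i _ => ?_)
        rw [norm_mul, Complex.norm_real, Real.norm_of_nonneg (H.hw N i), norm_mul]
        apply mul_le_mul_of_nonneg_left _ (H.hw N i)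
        apply mul_le_mul _ _ (norm_nonneg _) (by positivity)
        · refine (norm_sub_le _ _).trans ?_
          rw [norm_mul, Complex.norm_I, one_mul, Complex.norm_real, Complex.norm_real]
          have h1 := dVf_bound τ t (l N i)
          have h2 : |a| ≤ |a| * (1 + l N i ^ 6) := by
            have := abs_nonneg a
            have h6 : 0 ≤ l N i ^ 6 := by positivity
            nlinarith
          calc ‖a‖ + ‖dVf τ t (l N i)‖ ≤ |a| * (1 + l N i ^ 6)
                + (6 + 4 * |τ| + 2 * |t|) * (1 + l N i ^ 6) := add_le_add h2 h1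
            _ = c * (1 + l N i ^ 6) := by rw [hc]; ring
        · have h1 := exp_rem (a * l N i) (2 * k + 2)
          have h2 : |a * l N i| ^ (2 * k + 2) = (a * l N i) ^ (2 * k + 2) :=
            Even.pow_abs ⟨k + 1, by ring⟩ _
          rw [h2] at h1
          exact h1
    _ = c * ((a ^ 2) ^ (k + 1) * ((∑ i, w N i * l N i ^ (2 * (k + 1)))
          + ∑ i, w N i * l N i ^ (2 * (k + 4))) / ((2 * k + 2).factorial : ℝ)) := by
        rw [← Finset.sum_add_distrib, Finset.mul_sum, Finset.sum_div, Finset.mul_sum]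
        refine Finset.sum_congr rfl fun i _ => ?_
        rw [mul_pow]
        have : a ^ (2 * k + 2) = (a ^ 2) ^ (k + 1) := by rw [← pow_mul]; ring_nf
        rw [this]
        ring
    _ = _ := by rw [← q1, ← q2]

lemma EN_tendsto (H : Quad τ t m w l) (a : ℝ) :
    Tendsto (fun N => EN τ t w l N a) atTop (𝓝 0) := by
  obtain ⟨B, C, hB, hC, hg⟩ := H.growth
  -- the bound as a function of k
  set c : ℝ := |a| + (6 + 4 * |τ| + 2 * |t|) with hc
  have hc0 : 0 ≤ c := by positivity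
  set D : ℝ := c * (65 * C * B ^ 3) with hD
  have hD0 : 0 ≤ D := by positivity
  have hk : ∀ k : ℕ, c * ((a ^ 2) ^ (k + 1) * (m (2 * (k + 1)) + m (2 * (k + 4)))
      / ((2 * k + 2).factorial : ℝ)) ≤ D * ((8 * B * a ^ 2) ^ (k + 1) / ((k + 1).factorial : ℝ)) := by
    intro k
    have g1 := hg (k + 1)
    have g2 := hg (k + 4)
    have f1 : ((k + 1).factorial : ℝ) * ((k + 1).factorial : ℝ) ≤ ((2 * k + 2).factorial : ℝ) := by
      have := Nat.factorial_mul_factorial_dvd_factorial_add (k + 1) (k + 1)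
      have h2 : (k + 1).factorial * (k + 1).factorial ≤ (2 * k + 2).factorial := by
        have := Nat.le_of_dvd (Nat.factorial_pos _) this
        rwa [show k + 1 + (k + 1) = 2 * k + 2 by ring] at this
      exact_mod_cast h2
    have hF : (0 : ℝ) < ((k + 1).factorial : ℝ) := by exact_mod_cast Nat.factorial_pos _
    have hF2 : (0 : ℝ) < ((2 * k + 2).factorial : ℝ) := by exact_mod_cast Nat.factorial_pos _
    have f4 : ((k + 4).factorial : ℝ) ≤ 64 * 8 ^ k * ((k + 1).factorial : ℝ) := by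
      have e : ((k + 4).factorial : ℝ) = (k + 4) * (k + 3) * (k + 2) * ((k + 1).factorial : ℝ) := by
        rw [show k + 4 = (k + 3) + 1 by ring, Nat.factorial_succ, Nat.factorial_succ,
          Nat.factorial_succ]
        push_cast; ring
      rw [e]
      apply mul_le_mul_of_nonneg_right _ hF.le
      have h1 : (k : ℝ) + 1 ≤ 2 ^ k := by
        have := Nat.lt_two_pow_self (n := k)
        exact_mod_cast this
      have h2 : (0 : ℝ) ≤ k := Nat.cast_nonneg k
      have e8 : (64 : ℝ) * 8 ^ k = (4 * 2 ^ k) ^ 3 := by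
        rw [mul_pow, ← pow_mul, mul_comm k 3, pow_mul]; norm_num
      rw [e8]
      have h3 : (k : ℝ) + 4 ≤ 4 * 2 ^ k := by linarith
      calc ((k : ℝ) + 4) * (k + 3) * (k + 2) ≤ (k + 4) * (k + 4) * (k + 4) := by
            gcongr <;> norm_num
        _ = ((k : ℝ) + 4) ^ 3 := by ring
        _ ≤ (4 * 2 ^ k) ^ 3 := by gcongr
    have n1 : m (2 * (k + 1)) + m (2 * (k + 4))
        ≤ (65 * C * B ^ 3) * (8 * B) ^ (k + 1) * ((k + 1).factorial : ℝ) := by
      have hB0 : 0 < B := by linarith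
      have a1 : m (2 * (k + 1)) ≤ C * B ^ 3 * (8 * B) ^ (k + 1) * ((k + 1).factorial : ℝ) := by
        refine g1.trans ?_
        apply mul_le_mul_of_nonneg_right _ hF.le
        have h1 : B ^ (k + 1) ≤ (8 * B) ^ (k + 1) := by gcongr; linarith
        have h2 : (1:ℝ) ≤ B ^ 3 := one_le_pow₀ hB
        calc C * B ^ (k + 1) ≤ C * (8 * B) ^ (k + 1) := by gcongr
          _ = C * 1 * (8 * B) ^ (k + 1) := by ring
          _ ≤ C * B ^ 3 * (8 * B) ^ (k + 1) := by gcongr
      have a2 : m (2 * (k + 4)) ≤ 64 * C * B ^ 3 * (8 * B) ^ (k + 1) * ((k + 1).factorial : ℝ) := by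
        refine g2.trans ?_
        calc C * B ^ (k + 4) * ((k + 4).factorial : ℝ)
            ≤ C * B ^ (k + 4) * (64 * 8 ^ k * ((k + 1).factorial : ℝ)) := by gcongr
          _ = 64 * C * B ^ 3 * (8 ^ k * B ^ (k + 1)) * ((k + 1).factorial : ℝ) := by ring
          _ ≤ 64 * C * B ^ 3 * (8 ^ (k + 1) * B ^ (k + 1)) * ((k + 1).factorial : ℝ) := by
              gcongr <;> norm_num
          _ = _ := by rw [mul_pow]
      calc _ ≤ _ := add_le_add a1 a2
        _ = _ := by ring
    calc c * ((a ^ 2) ^ (k + 1) * (m (2 * (k + 1)) + m (2 * (k + 4))) / ((2 * k + 2).factorial : ℝ))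
        ≤ c * ((a ^ 2) ^ (k + 1) * ((65 * C * B ^ 3) * (8 * B) ^ (k + 1) * ((k + 1).factorial : ℝ))
          / (((k + 1).factorial : ℝ) * ((k + 1).factorial : ℝ))) := by
          have hB0 : 0 < B := by linarith
          gcongr
      _ = D * ((8 * B * a ^ 2) ^ (k + 1) / ((k + 1).factorial : ℝ)) := by
          rw [hD, mul_pow (8 * B)]
          field_simp
  rw [Metric.tendsto_atTop]
  intro ε hε
  have hlim : Tendsto (fun k : ℕ => D * ((8 * B * a ^ 2) ^ (k + 1) / ((k + 1).factorial : ℝ)))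
      atTop (𝓝 0) := by
    have h1 := FloorSemiring.tendsto_pow_div_factorial_atTop (8 * B * a ^ 2)
    have h2 := (h1.comp (tendsto_add_atTop_nat 1)).const_mul D
    simpa using h2
  obtain ⟨k, hk2⟩ := ((tendsto_order.1 hlim).2 ε hε).exists
  refine ⟨2 * k + 8, fun N hN => ?_⟩
  rw [dist_zero_right]
  exact lt_of_le_of_lt ((EN_taylor H N k hN a).trans (hk k)) hk2

end Pool.Agent.Q162.Freud
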