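import Pool.Agent.Q162.Freud.Ana2

namespace Pool.Agent.Q162.Freud

open MeasureTheory Filter Topology Finset
open scoped Real SchwartzMap FourierTransform ContDiff

variable {τ t : ℝ} {m : ℕ → ℝ} {w l : (N : ℕ) → Fin (N + 1) → ℝ}

lemma schwartz_rep (f : 𝓢(ℝ, ℂ)) (x : ℝ) :
    f x = ∫ a, Complex.exp (Complex.I * ((2 * π * a) * x : ℝ)) * (𝓕 f) a := by
  have h1 : 𝓕⁻ (𝓕 f) = f := FourierTransform.fourierInv_fourier_eq f
  have h2 : f x = (𝓕⁻ (𝓕 f)) x := by rw [h1]
  rw [h2, SchwartzMap.fourierInv_coe, Real.fourierInv_eq']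
  refine integral_congr_ae (Eventually.of_forall fun a => ?_)
  simp only [smul_eq_mul]
  congr 2
  simp
  ring

lemma schwartz_deriv_fourier (f : 𝓢(ℝ, ℂ)) (a : ℝ) :
    (𝓕 (SchwartzMap.derivCLM ℂ ℂ f)) a = (Complex.I * (2 * π * a : ℝ)) * (𝓕 f) a := by
  have h1 := Real.fourier_deriv (f := (f : ℝ → ℂ)) f.integrable f.differentiable
    (SchwartzMap.derivCLM ℂ ℂ f).integrable
  have h2 : (𝓕 (SchwartzMap.derivCLM ℂ ℂ f)) a = 𝓕 (deriv (f : ℝ → ℂ)) a := by
    rw [SchwartzMap.fourier_coe]
    rfl
  rw [h2, h1, SchwartzMap.fourier_coe]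
  simp only [smul_eq_mul]
  push_cast
  ring

lemma schwartz_deriv_rep (f : 𝓢(ℝ, ℂ)) (x : ℝ) :
    deriv f x = ∫ a, (Complex.I * (2 * π * a : ℝ)) *
      Complex.exp (Complex.I * ((2 * π * a) * x : ℝ)) * (𝓕 f) a := by
  have h := schwartz_rep (SchwartzMap.derivCLM ℂ ℂ f) x
  rw [SchwartzMap.derivCLM_apply] at h
  rw [h]
  refine integral_congr_ae (Eventually.of_forall fun a => ?_)
  simp only [schwartz_deriv_fourier]
  ring

lemma integrable_phase (g : 𝓢(ℝ, ℂ)) (x : ℝ) :
    Integrable (fun a : ℝ => Complex.exp (Complex.I * ((2 * π * a) * x : ℝ)) * g a) := by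
  refine (g.integrable (μ := volume)).norm.mono' ?_ ?_
  · have : Continuous (fun a : ℝ => Complex.exp (Complex.I * ((2 * π * a) * x : ℝ)) * g a) := by
      have := g.continuous
      fun_prop
    exact this.aestronglyMeasurable
  · refine Eventually.of_forall fun a => ?_
    rw [norm_mul, mul_comm Complex.I, Complex.norm_exp_ofReal_mul_I, one_mul]

lemma schwartz_sum (H : Quad τ t m w l) (f : 𝓢(ℝ, ℂ)) (N : ℕ) :
    ∑ i, (w N i : ℂ) * (deriv f (l N i) - dVf τ t (l N i) * f (l N i))
      = ∫ a, EN τ t w l N (2 * π * a) * (𝓕 f) a := by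
  have h1 : ∀ i, (w N i : ℂ) * (deriv f (l N i) - dVf τ t (l N i) * f (l N i))
      = ∫ a, (w N i : ℂ) * ((Complex.I * (2 * π * a : ℝ) - dVf τ t (l N i)) *
        Complex.exp (Complex.I * ((2 * π * a) * l N i : ℝ))) * (𝓕 f) a := by
    intro i
    have i1 : Integrable (fun a : ℝ => (Complex.I * (2 * π * a : ℝ)) *
        Complex.exp (Complex.I * ((2 * π * a) * l N i : ℝ)) * (𝓕 f) a) := by
      have := integrable_phase (𝓕 (SchwartzMap.derivCLM ℂ ℂ f)) (l N i)
      simp only [schwartz_deriv_fourier] at this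
      refine this.congr (Eventually.of_forall fun a => ?_)
      simp only
      ring
    have i2 := integrable_phase (𝓕 f) (l N i)
    rw [schwartz_deriv_rep, schwartz_rep f (l N i), ← integral_const_mul (dVf τ t (l N i) : ℂ),
      ← integral_sub i1 (i2.const_mul _), ← integral_const_mul]
    refine integral_congr_ae (Eventually.of_forall fun a => ?_)
    simp only
    ring
  simp_rw [h1]
  rw [← integral_finsetSum]
  · refine integral_congr_ae (Eventually.of_forall fun a => ?_)
    simp only [EN]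
    rw [Finset.sum_mul]
  · intro i _
    have i1 : Integrable (fun a : ℝ => (Complex.I * (2 * π * a : ℝ)) *
        Complex.exp (Complex.I * ((2 * π * a) * l N i : ℝ)) * (𝓕 f) a) := by
      have := integrable_phase (𝓕 (SchwartzMap.derivCLM ℂ ℂ f)) (l N i)
      simp only [schwartz_deriv_fourier] at this
      refine this.congr (Eventually.of_forall fun a => ?_)
      simp only
      ring
    have i2 := integrable_phase (𝓕 f) (l N i)
    have i3 := (i1.sub (i2.const_mul (dVf τ t (l N i) : ℂ))).const_mul (w N i : ℂ)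
    refine i3.congr (Eventually.of_forall fun a => ?_)
    simp only [Pi.sub_apply]
    ring

lemma schwartz_tendsto (H : Quad τ t m w l) (f : 𝓢(ℝ, ℂ)) :
    Tendsto (fun N => ∑ i, (w N i : ℂ) * (deriv f (l N i) - dVf τ t (l N i) * f (l N i)))
      atTop (𝓝 0) := by
  simp_rw [schwartz_sum H f]
  set c : ℝ := (6 + 4 * |τ| + 2 * |t|) * (1 + m 6) with hc
  have hlim : Tendsto (fun N => ∫ a, EN τ t w l N (2 * π * a) * (𝓕 f) a) atTop
      (𝓝 (∫ a : ℝ, (0 : ℂ))) := by
    refine tendsto_integral_filter_of_dominated_convergence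
      (fun a : ℝ => (2 * π) * (‖a‖ ^ 1 * ‖(𝓕 f) a‖) + c * ‖(𝓕 f) a‖) ?_ ?_ ?_ ?_
    · refine Eventually.of_forall fun N => ?_
      have : Continuous (fun a : ℝ => EN τ t w l N (2 * π * a) * (𝓕 f) a) := by
        have := (𝓕 f).continuous
        unfold EN
        fun_prop
      exact this.aestronglyMeasurable
    · filter_upwards [eventually_ge_atTop 6] with N hN
      refine Eventually.of_forall fun a => ?_
      rw [norm_mul]
      calc ‖EN τ t w l N (2 * π * a)‖ * ‖(𝓕 f) a‖
          ≤ (|2 * π * a| + c) * ‖(𝓕 f) a‖ := by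
            apply mul_le_mul_of_nonneg_right (EN_bound H N hN _) (norm_nonneg _)
        _ = _ := by
            rw [abs_mul, abs_of_nonneg (by positivity : (0:ℝ) ≤ 2 * π), Real.norm_eq_abs]; ring
    · exact (((𝓕 f).integrable_pow_mul volume 1).const_mul _).add
        (((𝓕 f).integrable (μ := volume)).norm.const_mul _)
    · refine Eventually.of_forall fun a => ?_
      have := (EN_tendsto H (2 * π * a)).mul_const ((𝓕 f) a)
      simpa using this
  simpa using hlim

/-- real version for smooth compactly supported functions -/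
lemma real_tendsto (H : Quad τ t m w l) (f : ℝ → ℝ) (hf : ContDiff ℝ ∞ f)
    (hfc : HasCompactSupport f) :
    Tendsto (fun N => ∑ i, w N i * (deriv f (l N i) - dVf τ t (l N i) * f (l N i)))
      atTop (𝓝 0) := by
  have hfc' : HasCompactSupport (fun x => (f x : ℂ)) := by
    have := hfc.comp_left (g := (fun x : ℝ => (x : ℂ))) (by simp)
    exact this
  have hf' : ContDiff ℝ ∞ (fun x => (f x : ℂ)) := Complex.ofRealCLM.contDiff.comp hf
  have key := schwartz_tendsto H (hfc'.toSchwartzMap hf')
  have hd : ∀ x, deriv (hfc'.toSchwartzMap hf') x = ((deriv f x : ℝ) : ℂ) := by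
    intro x
    have h1 : HasDerivAt f (deriv f x) x :=
      (hf.differentiable (by simp)).differentiableAt.hasDerivAt
    exact h1.ofReal_comp.deriv
  have hv : ∀ x, (hfc'.toSchwartzMap hf') x = (f x : ℂ) := fun x => rfl
  simp only [hd, hv] at key
  have h2 := (Complex.continuous_re.tendsto _).comp key
  simp only [Complex.zero_re] at h2
  refine h2.congr fun N => ?_
  simp only [Function.comp_apply, Complex.re_sum]
  refine Finset.sum_congr rfl fun i _ => ?_
  rw [← Complex.ofReal_mul, ← Complex.ofReal_sub, ← Complex.ofReal_mul, Complex.ofReal_re]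

/-- potential -/
def Vf (τ t x : ℝ) : ℝ := x ^ 6 - τ * x ^ 4 - t * x ^ 2

/-- weight -/
noncomputable def om (τ t x : ℝ) : ℝ := Real.exp (-x ^ 6 + τ * x ^ 4 + t * x ^ 2)

lemma om_eq (τ t x : ℝ) : om τ t x = Real.exp (-Vf τ t x) := by
  unfold om Vf; congr 1; ring

lemma Vf_hasDeriv (τ t x : ℝ) : HasDerivAt (Vf τ t) (dVf τ t x) x := by
  unfold Vf dVf
  have h1 := ((hasDerivAt_pow 6 x).sub ((hasDerivAt_pow 4 x).const_mul τ)).sub
    ((hasDerivAt_pow 2 x).const_mul t)
  refine h1.congr_deriv ?_
  simp; ring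

lemma Vf_contDiff (τ t : ℝ) : ContDiff ℝ ∞ (Vf τ t) := by
  unfold Vf; fun_prop

lemma om_contDiff (τ t : ℝ) : ContDiff ℝ ∞ (om τ t) := by
  unfold om
  have : ContDiff ℝ ∞ (fun x : ℝ => -x ^ 6 + τ * x ^ 4 + t * x ^ 2) := by fun_prop
  exact this.exp

lemma om_pos (τ t x : ℝ) : 0 < om τ t x := Real.exp_pos _

lemma stein (H : Quad τ t m w l) (g : ℝ → ℝ) (hg : ContDiff ℝ ∞ g) (hgc : HasCompactSupport g)
    (hz : ∫ x, g x * om τ t x = 0) :
    Tendsto (fun N => ∑ i, w N i * g (l N i)) atTop (𝓝 0) := by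
  obtain ⟨r, hr⟩ := hgc.isCompact.isBounded.subset_closedBall (0 : ℝ)
  set R : ℝ := |r| + 1 with hR
  have hR0 : 0 < R := by positivity
  have hgz : ∀ x, R ≤ |x| → g x = 0 := by
    intro x hx
    by_contra hne
    have h1 : x ∈ tsupport g := subset_closure hne
    have h2 := hr h1
    rw [Metric.mem_closedBall, dist_zero_right, Real.norm_eq_abs] at h2
    have := le_abs_self r
    linarith
  set u : ℝ → ℝ := fun x => g x * om τ t x with hu
  have hus : ContDiff ℝ ∞ u := hg.mul (om_contDiff τ t)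
  have huc : Continuous u := hus.continuous
  have huz : ∀ x, R ≤ |x| → u x = 0 := by
    intro x hx; simp [hu, hgz x hx]
  set G : ℝ → ℝ := fun x => ∫ y in (-R)..x, u y with hG
  have hGd : ∀ x, HasDerivAt G (u x) x := fun x =>
    intervalIntegral.integral_hasDerivAt_right (huc.intervalIntegrable _ _)
      huc.aestronglyMeasurable.stronglyMeasurableAtFilter huc.continuousAt
  have hGs : ContDiff ℝ ∞ G := by
    rw [contDiff_infty_iff_deriv]
    refine ⟨fun x => (hGd x).differentiableAt, ?_⟩
    have : deriv G = u := funext fun x => (hGd x).deriv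
    rw [this]; exact hus
  have hG1 : ∀ x, x ≤ -R → G x = 0 := by
    intro x hx
    simp only [hG]
    rw [intervalIntegral.integral_symm, neg_eq_zero]
    have : ∫ y in x..(-R), u y = ∫ y in x..(-R), (0:ℝ) := by
      apply intervalIntegral.integral_congr
      intro y hy
      rw [Set.uIcc_of_le hx] at hy
      apply huz
      rw [abs_of_nonpos (by linarith [hy.2])]
      linarith [hy.2]
    rw [this]; simp
  have hG2 : ∀ x, R ≤ x → G x = 0 := by
    intro x hx
    simp only [hG]
    rw [intervalIntegral.integral_eq_integral_of_support_subset]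
    · exact hz
    · intro y hy
      rw [Function.mem_support] at hy
      have : |y| < R := by
        by_contra h
        exact hy (huz y (not_lt.1 h))
      rw [abs_lt] at this
      exact ⟨this.1, by linarith [this.2]⟩
  set φ : ℝ → ℝ := fun x => Real.exp (Vf τ t x) * G x with hφ
  have hφs : ContDiff ℝ ∞ φ := (Vf_contDiff τ t).exp.mul hGs
  have hφc : HasCompactSupport φ := by
    refine HasCompactSupport.intro (isCompact_Icc (a := -R) (b := R)) ?_
    intro x hx
    simp only [Set.mem_Icc, not_and_or, not_le] at hx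
    simp only [hφ]
    rcases hx with hx | hx
    · rw [hG1 x hx.le, mul_zero]
    · rw [hG2 x hx.le, mul_zero]
  have hφd : ∀ x, deriv φ x - dVf τ t x * φ x = g x := by
    intro x
    have h1 : HasDerivAt φ (Real.exp (Vf τ t x) * dVf τ t x * G x + Real.exp (Vf τ t x) * u x) x :=
      ((Vf_hasDeriv τ t x).exp).mul (hGd x)
    rw [h1.deriv]
    simp only [hφ, hu, om_eq]
    have : Real.exp (Vf τ t x) * Real.exp (-Vf τ t x) = 1 := by
      rw [← Real.exp_add]; simp
    linear_combination (g x) * this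
  have key := real_tendsto H φ hφs hφc
  simpa only [hφd] using key

end Pool.Agent.Q162.Freud
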