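import Pool.Agent.Q162.Freud.Ana3

namespace Pool.Agent.Q162.Freud

open MeasureTheory Filter Topology Finset Polynomial
open scoped Real ContDiff

variable {τ t : ℝ} {m : ℕ → ℝ} {w l : (N : ℕ) → Fin (N + 1) → ℝ}

lemma om_le (τ t : ℝ) : ∃ K : ℝ, 0 ≤ K ∧ ∀ x, om τ t x ≤ K * Real.exp (-(1:ℝ) * x ^ 2) := by
  set c : ℝ := |τ| + |t| + 1 with hc
  have hc1 : 1 ≤ c := by rw [hc]; linarith [abs_nonneg τ, abs_nonneg t]
  refine ⟨Real.exp (4 * c ^ 3 + 2 * c ^ 2), (Real.exp_pos _).le, fun x => ?_⟩
  rw [om, ← Real.exp_add]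
  apply Real.exp_le_exp.2
  set u : ℝ := x ^ 2 with hu
  have hu0 : 0 ≤ u := sq_nonneg x
  have e1 : x ^ 6 = u ^ 3 := by rw [hu]; ring
  have e2 : x ^ 4 = u ^ 2 := by rw [hu]; ring
  rw [e1, e2]
  have b1 : τ * u ^ 2 ≤ c * u ^ 2 := by
    apply mul_le_mul_of_nonneg_right _ (sq_nonneg u)
    rw [hc]; linarith [le_abs_self τ, abs_nonneg t]
  have b2 : (t + 1) * u ≤ c * u := by
    apply mul_le_mul_of_nonneg_right _ hu0
    rw [hc]; linarith [le_abs_self t, abs_nonneg τ]
  have b3 : -u ^ 3 + c * u ^ 2 + c * u ≤ 4 * c ^ 3 + 2 * c ^ 2 := by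
    rcases le_total u (2 * c) with h | h
    · have h1 : u ^ 2 ≤ (2 * c) ^ 2 := by gcongr
      have h2 : 0 ≤ u ^ 3 := by positivity
      nlinarith
    · have h1 : 1 ≤ u := by linarith
      have h2 : u ≤ u ^ 2 := by nlinarith
      have h3 : 2 * c * u ^ 2 ≤ u ^ 3 := by
        have : u ^ 3 = u * u ^ 2 := by ring
        rw [this]; gcongr
      have h4 : 0 ≤ 4 * c ^ 3 + 2 * c ^ 2 := by positivity
      nlinarith
  nlinarith

lemma int_pow (τ t : ℝ) (k : ℕ) : Integrable (fun x => x ^ k * om τ t x) := by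
  obtain ⟨K, hK, hle⟩ := om_le τ t
  have h1 : Integrable (fun x : ℝ => x ^ (k : ℝ) * Real.exp (-(1:ℝ) * x ^ 2)) :=
    integrable_rpow_mul_exp_neg_mul_sq one_pos (by
      have : (0:ℝ) ≤ k := Nat.cast_nonneg k
      linarith)
  have h2 : Integrable (fun x : ℝ => x ^ k * Real.exp (-(1:ℝ) * x ^ 2)) := by
    refine h1.congr (Eventually.of_forall fun x => ?_)
    simp only [Real.rpow_natCast]
  refine (h2.norm.const_mul K).mono' ?_ (Eventually.of_forall fun x => ?_)
  · exact ((continuous_pow k).mul (om_contDiff τ t).continuous).aestronglyMeasurable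
  · rw [norm_mul, norm_mul, Real.norm_of_nonneg (om_pos τ t x).le,
      Real.norm_of_nonneg (Real.exp_pos _).le]
    calc ‖x ^ k‖ * om τ t x ≤ ‖x ^ k‖ * (K * Real.exp (-(1:ℝ) * x ^ 2)) := by
          apply mul_le_mul_of_nonneg_left (hle x) (norm_nonneg _)
      _ = _ := by ring

lemma int_poly (τ t : ℝ) (p : ℝ[X]) : Integrable (fun x => p.eval x * om τ t x) := by
  induction p using Polynomial.induction_on' with
  | add p q hp hq =>
    refine (hp.add hq).congr (Eventually.of_forall fun x => ?_)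
    simp only [Pi.add_apply, eval_add]; ring
  | monomial n a =>
    refine ((int_pow τ t n).const_mul a).congr (Eventually.of_forall fun x => ?_)
    simp only [eval_monomial]; ring

lemma integral_pos_of_cont (f : ℝ → ℝ) (hf : Continuous f) (hi : Integrable f)
    (h0 : ∀ x, 0 ≤ f x) (x₀ : ℝ) (hx : 0 < f x₀) : 0 < ∫ x, f x := by
  rw [integral_pos_iff_support_of_nonneg h0 hi]
  have ho : IsOpen (Function.support f) := hf.isOpen_support
  exact ho.measure_pos volume ⟨x₀, hx.ne'⟩

lemma int_om_pos (τ t : ℝ) : 0 < ∫ x, om τ t x := by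
  apply integral_pos_of_cont _ (om_contDiff τ t).continuous _ (fun x => (om_pos τ t x).le) 0
    (om_pos τ t 0)
  have := int_pow τ t 0
  simpa using this

/-- The quadrature sum of a polynomial. -/
lemma quad_poly (H : Quad τ t m w l) (L : ℝ[X] →ₗ[ℝ] ℝ) (hL : ∀ k, L (X ^ k) = m k) (p : ℝ[X])
    (N : ℕ) (hN : p.natDegree ≤ N) : ∑ i, w N i * p.eval (l N i) = L p := by
  have h1 : L p = ∑ k ∈ range (p.natDegree + 1), p.coeff k * m k := by
    conv_lhs => rw [p.as_sum_range_C_mul_X_pow]
    rw [map_sum]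
    refine Finset.sum_congr rfl fun k _ => ?_
    rw [← smul_eq_C_mul, map_smul, hL, smul_eq_mul]
  rw [h1]
  simp_rw [eval_eq_sum_range, Finset.mul_sum]
  rw [Finset.sum_comm]
  refine Finset.sum_congr rfl fun k hk => ?_
  rw [H.hq N k (by have := Finset.mem_range.1 hk; omega), Finset.mul_sum]
  refine Finset.sum_congr rfl fun i _ => ?_
  ring

theorem functional_zero (H : Quad τ t m w l) (L : ℝ[X] →ₗ[ℝ] ℝ) (hL : ∀ k, L (X ^ k) = m k)
    (p : ℝ[X]) (hp : ∫ x, p.eval x * om τ t x = 0) : L p = 0 := by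
  -- cutoffs
  let χ : ℕ → ContDiffBump (0 : ℝ) := fun n => ⟨n + 1, n + 2, by positivity, by linarith⟩
  have hχ1 : ∀ (n : ℕ) (x : ℝ), |x| ≤ (n : ℝ) + 1 → χ n x = 1 := by
    intro n x hx
    apply (χ n).one_of_mem_closedBall
    rw [Metric.mem_closedBall, dist_zero_right, Real.norm_eq_abs]
    exact hx
  have hχ0 : ∀ n x, 0 ≤ χ n x := fun n x => (χ n).nonneg
  have hχle : ∀ n x, χ n x ≤ 1 := fun n x => (χ n).le_one
  have hχc : ∀ n, HasCompactSupport (χ n : ℝ → ℝ) := fun n => (χ n).hasCompactSupport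
  have hχs : ∀ n, ContDiff ℝ ∞ (χ n : ℝ → ℝ) := fun n => (χ n).contDiff
  have hps : ContDiff ℝ ∞ (fun x => p.eval x) := by
    simp_rw [eval_eq_sum_range]
    fun_prop
  have hoc : Continuous (om τ t) := (om_contDiff τ t).continuous
  have hi0 : Integrable (fun x => χ 0 x * om τ t x) := by
    have h1 : Integrable (om τ t) := by simpa using int_pow τ t 0
    refine h1.mono' ((hχs 0).continuous.mul hoc).aestronglyMeasurable
      (Eventually.of_forall fun x => ?_)
    rw [Real.norm_of_nonneg (mul_nonneg (hχ0 0 x) (om_pos τ t x).le)]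
    calc χ 0 x * om τ t x ≤ 1 * om τ t x :=
          mul_le_mul_of_nonneg_right (hχle 0 x) (om_pos τ t x).le
      _ = _ := one_mul _
  have hin : ∀ n, Integrable (fun x => p.eval x * χ n x * om τ t x) := by
    intro n
    refine (int_poly τ t p).norm.mono' ((hps.continuous.mul (hχs n).continuous).mul
      hoc).aestronglyMeasurable (Eventually.of_forall fun x => ?_)
    rw [norm_mul, norm_mul, norm_mul, Real.norm_of_nonneg (hχ0 n x)]
    have h1 : ‖p.eval x‖ * χ n x ≤ ‖p.eval x‖ * 1 :=
      mul_le_mul_of_nonneg_left (hχle n x) (norm_nonneg _)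
    calc _ ≤ ‖p.eval x‖ * 1 * ‖om τ t x‖ := mul_le_mul_of_nonneg_right h1 (norm_nonneg _)
      _ = _ := by ring
  set I0 : ℝ := ∫ x, χ 0 x * om τ t x with hI0
  have hI0pos : 0 < I0 := by
    apply integral_pos_of_cont _ ((hχs 0).continuous.mul hoc) hi0
      (fun x => mul_nonneg (hχ0 0 x) (om_pos τ t x).le) 0
    show 0 < χ 0 0 * om τ t 0
    rw [hχ1 0 0 (by simp), one_mul]
    exact om_pos τ t 0
  set c : ℕ → ℝ := fun n => (∫ x, p.eval x * χ n x * om τ t x) / I0 with hc
  -- c n → 0
  have hc0 : Tendsto c atTop (𝓝 0) := by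
    have h1 : Tendsto (fun n => ∫ x, p.eval x * χ n x * om τ t x) atTop
        (𝓝 (∫ x, p.eval x * om τ t x)) := by
      refine tendsto_integral_of_dominated_convergence (fun x => ‖p.eval x * om τ t x‖)
        (fun n => (hin n).aestronglyMeasurable) (int_poly τ t p).norm ?_ ?_
      · intro n
        refine Eventually.of_forall fun x => ?_
        rw [norm_mul, norm_mul, norm_mul, Real.norm_of_nonneg (hχ0 n x)]
        have h1 : ‖p.eval x‖ * χ n x ≤ ‖p.eval x‖ * 1 :=
          mul_le_mul_of_nonneg_left (hχle n x) (norm_nonneg _)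
        calc _ ≤ ‖p.eval x‖ * 1 * ‖om τ t x‖ := mul_le_mul_of_nonneg_right h1 (norm_nonneg _)
          _ = _ := by ring
      · refine Eventually.of_forall fun x => ?_
        refine tendsto_const_nhds.congr' ?_
        obtain ⟨n0, hn0⟩ := exists_nat_ge |x|
        filter_upwards [eventually_ge_atTop n0] with n hn
        have : (n0 : ℝ) ≤ n := by exact_mod_cast hn
        rw [hχ1 n x (by linarith), mul_one]
    rw [hp] at h1
    simpa using h1.div_const I0
  set q : ℝ[X] := (1 + p ^ 2) * X ^ 2 with hq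
  -- main bound
  have main : ∀ n : ℕ, |L p| ≤ |c n| + L q / ((n : ℝ) + 1) ^ 2 := by
    intro n
    have hst := stein H (fun x => p.eval x * χ n x - c n * χ 0 x)
      ((hps.mul (hχs n)).sub (contDiff_const.mul (hχs 0)))
      (((hχc n).mul_left).sub ((hχc 0).mul_left)) (by
        have e : (fun x => (p.eval x * χ n x - c n * χ 0 x) * om τ t x)
            = fun x => p.eval x * χ n x * om τ t x - c n * (χ 0 x * om τ t x) := by
          funext x; ring
        rw [e, integral_sub (hin n) (hi0.const_mul _), integral_const_mul, ← hI0, hc]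
        field_simp
        ring)
    have hst2 : Tendsto (fun N => |∑ i, w N i * (p.eval (l N i) * χ n (l N i)
        - c n * χ 0 (l N i))| + (|c n| + L q / ((n : ℝ) + 1) ^ 2)) atTop
        (𝓝 (0 + (|c n| + L q / ((n : ℝ) + 1) ^ 2))) := by
      have h1 := hst.abs
      rw [abs_zero] at h1
      exact h1.add_const _
    rw [zero_add] at hst2
    refine ge_of_tendsto hst2 ?_
    filter_upwards [eventually_ge_atTop (max p.natDegree q.natDegree)] with N hN
    have hN1 : p.natDegree ≤ N := le_trans (le_max_left _ _) hN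
    have hN2 : q.natDegree ≤ N := le_trans (le_max_right _ _) hN
    have e1 := quad_poly H L hL p N hN1
    have e2 := quad_poly H L hL q N hN2
    have e0 : ∑ i, w N i = 1 := by
      have := H.hq N 0 (by omega)
      rw [H.m0] at this
      simpa using this.symm
    have split : L p = ∑ i, w N i * (p.eval (l N i) * χ n (l N i) - c n * χ 0 (l N i))
        + (c n * ∑ i, w N i * χ 0 (l N i)
        + ∑ i, w N i * (p.eval (l N i) * (1 - χ n (l N i)))) := by
      rw [← e1, Finset.mul_sum, ← Finset.sum_add_distrib, ← Finset.sum_add_distrib]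
      refine Finset.sum_congr rfl fun i _ => ?_
      ring
    have b1 : |c n * ∑ i, w N i * χ 0 (l N i)| ≤ |c n| := by
      rw [abs_mul]
      have h0 : 0 ≤ ∑ i, w N i * χ 0 (l N i) :=
        Finset.sum_nonneg fun i _ => mul_nonneg (H.hw N i) (hχ0 0 _)
      have h1 : ∑ i, w N i * χ 0 (l N i) ≤ 1 := by
        rw [← e0]
        refine Finset.sum_le_sum fun i _ => ?_
        calc w N i * χ 0 (l N i) ≤ w N i * 1 :=
              mul_le_mul_of_nonneg_left (hχle 0 _) (H.hw N i)
          _ = w N i := mul_one _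
      rw [abs_of_nonneg h0]
      calc |c n| * _ ≤ |c n| * 1 := mul_le_mul_of_nonneg_left h1 (abs_nonneg _)
        _ = _ := mul_one _
    have b2 : |∑ i, w N i * (p.eval (l N i) * (1 - χ n (l N i)))| ≤ L q / ((n : ℝ) + 1) ^ 2 := by
      rw [← e2, Finset.sum_div]
      refine (Finset.abs_sum_le_sum_abs _ _).trans (Finset.sum_le_sum fun i _ => ?_)
      rw [abs_mul, abs_of_nonneg (H.hw N i), mul_div_assoc]
      apply mul_le_mul_of_nonneg_left _ (H.hw N i)
      have hn1 : (0:ℝ) < (n : ℝ) + 1 := by positivity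
      rw [abs_mul, abs_of_nonneg (by linarith [hχle n (l N i)] : 0 ≤ 1 - χ n (l N i))]
      set y := l N i with hy
      rw [le_div_iff₀ (by positivity)]
      have heq : q.eval y = (1 + (p.eval y) ^ 2) * y ^ 2 := by simp [hq]
      rw [heq]
      rcases le_total |y| (n + 1) with h | h
      · rw [hχ1 n y h]
        have : 0 ≤ (1 + (p.eval y) ^ 2) * y ^ 2 := by positivity
        simpa using this
      · have h1 : ((n : ℝ) + 1) ^ 2 ≤ y ^ 2 := by
          rw [← sq_abs y]; gcongr
        have h2 : |p.eval y| ≤ 1 + (p.eval y) ^ 2 := by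
          rw [← sq_abs (p.eval y)]
          nlinarith [sq_nonneg (|p.eval y| - 1), abs_nonneg (p.eval y)]
        have h3 : 1 - χ n y ≤ 1 := by linarith [hχ0 n y]
        have h4 : 0 ≤ 1 - χ n y := by linarith [hχle n y]
        calc |p.eval y| * (1 - χ n y) * ((n : ℝ) + 1) ^ 2
            ≤ |p.eval y| * 1 * y ^ 2 := by gcongr
          _ ≤ (1 + (p.eval y) ^ 2) * 1 * y ^ 2 := by gcongr
          _ = _ := by ring
    rw [split]
    refine (abs_add_le _ _).trans ?_
    refine add_le_add le_rfl ?_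
    refine (abs_add_le _ _).trans ?_
    exact add_le_add b1 b2
  have hlim : Tendsto (fun n : ℕ => |c n| + L q / ((n : ℝ) + 1) ^ 2) atTop (𝓝 (0 + 0)) := by
    refine Tendsto.add ?_ ?_
    · simpa using hc0.abs
    · have h1 : Tendsto (fun n : ℕ => ((n : ℝ) + 1) ^ 2) atTop atTop := by
        apply (tendsto_pow_atTop (two_ne_zero)).comp
        exact tendsto_atTop_add_const_right _ _ tendsto_natCast_atTop_atTop
      exact h1.const_div_atTop (L q)
  rw [add_zero] at hlim
  have h := ge_of_tendsto' hlim main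
  exact abs_eq_zero.1 (le_antisymm h (abs_nonneg _))

theorem functional_eq (H : Quad τ t m w l) (L : ℝ[X] →ₗ[ℝ] ℝ) (hL : ∀ k, L (X ^ k) = m k)
    (p : ℝ[X]) : L p = (∫ x, p.eval x * om τ t x) / ∫ x, om τ t x := by
  have hpos := int_om_pos τ t
  set c : ℝ := (∫ x, p.eval x * om τ t x) / ∫ x, om τ t x with hc
  have h1 := functional_zero H L hL (p - C c) (by
    have e : (fun x => (p - C c).eval x * om τ t x)
        = fun x => p.eval x * om τ t x - c * om τ t x := by
      funext x; simp; ring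
    have hi : Integrable (om τ t) := by simpa using int_pow τ t 0
    rw [e, integral_sub (int_poly τ t p) (hi.const_mul _), integral_const_mul, hc]
    field_simp
    ring)
  rw [map_sub] at h1
  have h2 : L (C c) = c := by
    have : (C c : ℝ[X]) = c • (X ^ 0) := by rw [pow_zero, smul_eq_C_mul, mul_one]
    rw [this, map_smul, hL, H.m0, smul_eq_mul, mul_one]
  rw [h2] at h1
  linarith

end Pool.Agent.Q162.Freud
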