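import Pool.Agent.Q162.Freud.Alg

namespace Pool.Agent.Q162.Freud

open Polynomial Matrix

lemma herm_moments {N : ℕ} (J : Matrix (Fin (N + 1)) (Fin (N + 1)) ℝ) (hJ : J.IsHermitian) :
    ∃ w l : Fin (N + 1) → ℝ, (∀ i, 0 ≤ w i) ∧ ∀ k, (J ^ k) 0 0 = ∑ i, w i * l i ^ k := by
  refine ⟨fun i => ((hJ.eigenvectorUnitary : Matrix (Fin (N + 1)) (Fin (N + 1)) ℝ) 0 i) ^ 2, hJ.eigenvalues,
    fun i => sq_nonneg _, ?_⟩
  intro k
  have h1 : J ^ k = Unitary.conjStarAlgAut ℝ _ hJ.eigenvectorUnitary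
      (diagonal (RCLike.ofReal ∘ hJ.eigenvalues) ^ k) := by
    rw [map_pow, ← hJ.spectral_theorem]
  rw [h1, Matrix.diagonal_pow, Unitary.conjStarAlgAut_apply, Matrix.mul_apply]
  refine Finset.sum_congr rfl fun i _ => ?_
  rw [Matrix.mul_diagonal, Matrix.star_apply]
  simp
  ring

/-- Jacobi operator with off diagonal entries `a`. -/
noncomputable def A (a : ℕ → ℝ) : Module.End ℝ (ℕ → ℝ) where
  toFun v := fun n => a n * v (n - 1) + a (n + 1) * v (n + 1)
  map_add' u v := by ext n; simp; ring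
  map_smul' c v := by ext n; simp; ring

lemma A_apply (a : ℕ → ℝ) (v : ℕ → ℝ) (n : ℕ) :
    A a v n = a n * v (n - 1) + a (n + 1) * v (n + 1) := rfl

/-- unit vector. -/
def e (n : ℕ) : ℕ → ℝ := fun m => if m = n then 1 else 0

lemma A_e_zero (a : ℕ → ℝ) (ha : a 0 = 0) : A a (e 0) = a 1 • e 1 := by
  ext m
  rw [A_apply]
  simp only [e, Pi.smul_apply, smul_eq_mul]
  rcases m with _ | m
  · simp [ha]
  · by_cases hm : m = 0
    · subst hm; simp
    · simp [hm]

lemma A_e_succ (a : ℕ → ℝ) (ha : a 0 = 0) (n : ℕ) :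
    A a (e (n + 1)) = a (n + 2) • e (n + 2) + a (n + 1) • e n := by
  ext m
  rw [A_apply]
  simp only [e, Pi.smul_apply, Pi.add_apply, smul_eq_mul]
  rcases m with _ | m
  · by_cases hn : n = 0
    · subst hn; simp [ha]
    · have h1 : ¬ (0 = n) := fun h => hn h.symm
      have h2 : ¬ (0 + 1 = n + 1) := by omega
      simp [ha, h1, hn]
  · simp only [Nat.add_sub_cancel]
    by_cases h1 : m = n + 1
    · subst h1
      have h5 : ¬ (n + 1 + 1 = n) := by omega
      simp [h5]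
    · by_cases h2 : m + 1 = n
      · subst h2
        have h5 : ¬ (m = m + 1 + 1) := by omega
        simp [h5]
      · have h3 : ¬ (m + 1 + 1 = n + 1) := by omega
        have h4 : ¬ (m + 1 = n + 2) := by omega
        simp [h1, h2]

/-- the functional `p ↦ ⟨p(A) e₀, e₀⟩`. -/
noncomputable def Lf (a : ℕ → ℝ) : ℝ[X] →ₗ[ℝ] ℝ :=
  (LinearMap.proj 0 : (ℕ → ℝ) →ₗ[ℝ] ℝ) ∘ₗ (LinearMap.applyₗ (e 0) : Module.End ℝ (ℕ → ℝ) →ₗ[ℝ] _)
    ∘ₗ (aeval (A a)).toLinearMap

lemma Lf_apply (a : ℕ → ℝ) (p : ℝ[X]) : Lf a p = (aeval (A a) p) (e 0) 0 := rfl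

lemma P_A (a : ℕ → ℝ) (ha : a 0 = 0) (n : ℕ) :
    aeval (A a) (P (fun n => a n ^ 2) n) (e 0) = (∏ i ∈ Finset.range n, a (i + 1)) • e n := by
  have key : ∀ n, aeval (A a) (P (fun n => a n ^ 2) n) (e 0)
        = (∏ i ∈ Finset.range n, a (i + 1)) • e n ∧
      aeval (A a) (P (fun n => a n ^ 2) (n + 1)) (e 0)
        = (∏ i ∈ Finset.range (n + 1), a (i + 1)) • e (n + 1) := by
    intro n
    induction n with
    | zero =>
      constructor
      · simp [P_zero]
      · simp [P_one, A_e_zero a ha]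
    | succ n ih =>
      refine ⟨ih.2, ?_⟩
      rw [P_add_two, map_sub, map_mul, map_mul, aeval_X, aeval_C, LinearMap.sub_apply,
        Module.End.mul_apply, Module.End.mul_apply, ih.1, ih.2, map_smul, A_e_succ a ha,
        Module.algebraMap_end_apply]
      rw [Finset.prod_range_succ _ (n + 1), Finset.prod_range_succ _ n]
      ext m
      simp only [Pi.smul_apply, Pi.add_apply, Pi.sub_apply, smul_eq_mul]
      ring
  exact (key n).1

lemma Lf_isFun (a : ℕ → ℝ) (ha : a 0 = 0) : IsFun (fun n => a n ^ 2) (Lf a) := by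
  constructor
  · rw [Lf_apply]; simp [e]
  · intro n
    rw [Lf_apply, P_A a ha]
    simp [e]

/-- truncated Jacobi matrix. -/
noncomputable def J (a : ℕ → ℝ) (N : ℕ) : Matrix (Fin (N + 1)) (Fin (N + 1)) ℝ :=
  fun i j => if (i : ℕ) + 1 = j then a j else if (j : ℕ) + 1 = i then a i else 0

lemma J_herm (a : ℕ → ℝ) (N : ℕ) : (J a N).IsHermitian := by
  ext i j
  simp only [Matrix.conjTranspose_apply, J, star_trivial]
  by_cases h1 : (i : ℕ) + 1 = j
  · have : ¬ ((j : ℕ) + 1 = i) := by omega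
    simp [h1, this]
  · by_cases h2 : (j : ℕ) + 1 = i
    · simp [h2, h1]
    · simp [h1, h2]

lemma J_mulVec (a : ℕ → ℝ) (ha : a 0 = 0) (N : ℕ) (v : ℕ → ℝ) (hv : v (N + 1) = 0)
    (i : Fin (N + 1)) :
    (J a N *ᵥ (fun j => v j)) i = A a v i := by
  rw [A_apply, Matrix.mulVec, dotProduct]
  have h1 : ∀ j : Fin (N + 1), J a N i j * v j =
      (fun j : ℕ => (if (i : ℕ) + 1 = j then a j * v j else 0)
        + (if j + 1 = (i : ℕ) then a i * v j else 0)) j := by
    intro j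
    simp only [J]
    by_cases h1 : (i : ℕ) + 1 = j
    · have : ¬ ((j : ℕ) + 1 = i) := by omega
      simp [h1, this]
    · by_cases h2 : (j : ℕ) + 1 = i
      · simp [h2, h1]
      · simp [h1, h2]
  rw [Finset.sum_congr rfl (fun j _ => h1 j), Fin.sum_univ_eq_sum_range
    (fun j : ℕ => (if (i : ℕ) + 1 = j then a j * v j else 0)
        + (if j + 1 = (i : ℕ) then a i * v j else 0)), Finset.sum_add_distrib]
  have hi := i.2
  have s1 : ∑ j ∈ Finset.range (N + 1), (if (i : ℕ) + 1 = j then a j * v j else 0)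
      = a (i + 1) * v (i + 1) := by
    rw [Finset.sum_ite_eq]
    by_cases h : (i : ℕ) + 1 < N + 1
    · rw [if_pos (Finset.mem_range.2 h)]
    · rw [if_neg (by simpa using h)]
      have : (i : ℕ) + 1 = N + 1 := by omega
      rw [this, hv]; ring
  have s2 : ∑ j ∈ Finset.range (N + 1), (if j + 1 = (i : ℕ) then a i * v j else 0)
      = a i * v (i - 1) := by
    rcases Nat.eq_zero_or_pos (i : ℕ) with h | h
    · rw [h, ha, zero_mul]
      apply Finset.sum_eq_zero
      intro j _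
      simp
    · have h2 : ∀ j ∈ Finset.range (N + 1), (if j + 1 = (i : ℕ) then a i * v j else 0)
          = if (i : ℕ) - 1 = j then a i * v j else 0 := by
        intro j _
        by_cases h3 : j + 1 = (i : ℕ)
        · rw [if_pos h3, if_pos (by omega)]
        · rw [if_neg h3, if_neg (by omega)]
      rw [Finset.sum_congr rfl h2, Finset.sum_ite_eq, if_pos (Finset.mem_range.2 (by omega))]
  rw [s1, s2, add_comm]

lemma J_pow (a : ℕ → ℝ) (ha : a 0 = 0) (N k : ℕ) (hk : k ≤ N) :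
    (J a N ^ k) *ᵥ (fun j => e 0 j) = (fun j : Fin (N + 1) => ((A a) ^ k) (e 0) j) ∧
      ∀ m, k < m → ((A a) ^ k) (e 0) m = 0 := by
  induction k with
  | zero =>
    refine ⟨by simp, ?_⟩
    intro m hm
    simp [e]
    omega
  | succ k ih =>
    obtain ⟨h1, h2⟩ := ih (by omega)
    constructor
    · rw [pow_succ', pow_succ', ← Matrix.mulVec_mulVec, h1]
      ext i
      rw [J_mulVec a ha N _ (h2 _ (by omega))]
      rfl
    · intro m hm
      rw [pow_succ']
      show A a (((A a) ^ k) (e 0)) m = 0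
      rw [A_apply, h2 _ (by omega), h2 _ (by omega)]
      ring

theorem quad (a : ℕ → ℝ) (ha : a 0 = 0) (N : ℕ) :
    ∃ w l : Fin (N + 1) → ℝ, (∀ i, 0 ≤ w i) ∧
      ∀ k ≤ N, Lf a (X ^ k) = ∑ i, w i * l i ^ k := by
  obtain ⟨w, l, hw, h⟩ := herm_moments (J a N) (J_herm a N)
  refine ⟨w, l, hw, ?_⟩
  intro k hk
  rw [← h k, Lf_apply, map_pow, aeval_X]
  have h1 := congrFun (J_pow a ha N k hk).1 0
  simp only [Fin.val_zero] at h1
  rw [← h1]
  have h2 : (fun j : Fin (N + 1) => e 0 (j : ℕ)) = Pi.single 0 1 := by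
    ext j
    simp only [e, Pi.single_apply]
    by_cases hj : j = 0
    · subst hj; simp
    · have : ¬ ((j : ℕ) = 0) := fun h => hj (Fin.ext h)
      simp [hj, this]
  rw [h2, Matrix.mulVec_single_one]
  rfl

end Pool.Agent.Q162.Freud
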