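import Pool.Agent.Q162.Freud.Str
import Pool.Agent.Q162.Freud.Quad
import Pool.Agent.Q162.Freud.Ana4

namespace Pool.Agent.Q162.Freud

open MeasureTheory Filter Topology Finset Polynomial
open scoped Real ContDiff

/-- normalised weight functional -/
noncomputable def Lom (τ t : ℝ) : ℝ[X] →ₗ[ℝ] ℝ where
  toFun p := (∫ x, p.eval x * om τ t x) / ∫ x, om τ t x
  map_add' p q := by
    rw [← add_div, ← integral_add (int_poly τ t p) (int_poly τ t q)]
    congr 1
    refine integral_congr_ae (Eventually.of_forall fun x => ?_)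
    simp only [eval_add]; ring
  map_smul' c p := by
    simp only [RingHom.id_apply, smul_eq_mul]
    rw [← mul_div_assoc, ← integral_const_mul]
    congr 1
    refine integral_congr_ae (Eventually.of_forall fun x => ?_)
    simp only [eval_smul, smul_eq_mul]; ring

lemma Lom_apply (τ t : ℝ) (p : ℝ[X]) :
    Lom τ t p = (∫ x, p.eval x * om τ t x) / ∫ x, om τ t x := rfl

lemma Lom_one (τ t : ℝ) : Lom τ t 1 = 1 := by
  rw [Lom_apply]
  simp only [eval_one, one_mul]
  exact div_self (int_om_pos τ t).ne'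

lemma Lom_comp_neg (τ t : ℝ) (p : ℝ[X]) : Lom τ t (p.comp (-X)) = Lom τ t p := by
  rw [Lom_apply, Lom_apply]
  congr 1
  have h := integral_neg_eq_self (fun x => p.eval x * om τ t x) volume
  rw [← h]
  refine integral_congr_ae (Eventually.of_forall fun x => ?_)
  simp only [eval_comp, eval_neg, eval_X]
  congr 1
  unfold om
  congr 1
  ring

lemma Lom_odd (τ t : ℝ) (p : ℝ[X]) (hp : p.comp (-X) = -p) : Lom τ t p = 0 := by
  have := Lom_comp_neg τ t p
  rw [hp, map_neg] at this
  linarith

lemma Lom_sq_pos (τ t : ℝ) (p : ℝ[X]) (hp : p ≠ 0) : 0 < Lom τ t (p * p) := by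
  rw [Lom_apply]
  apply div_pos _ (int_om_pos τ t)
  obtain ⟨x₀, hx₀⟩ : ∃ x, p.eval x ≠ 0 := by
    by_contra hcon
    push Not at hcon
    exact hp (Polynomial.funext (by simpa using hcon))
  apply integral_pos_of_cont _ ((p * p).continuous.mul (om_contDiff τ t).continuous)
    (int_poly τ t (p * p)) _ x₀
  · simp only [eval_mul]
    exact mul_pos (mul_self_pos.2 hx₀) (om_pos τ t x₀)
  · intro x
    simp only [eval_mul]
    exact mul_nonneg (mul_self_nonneg _) (om_pos τ t x).le

lemma Lom_defect (τ t : ℝ) (p : ℝ[X]) : defect τ t (Lom τ t) p = 0 := by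
  rw [defect_apply, ← map_sub, Lom_apply]
  have hd : ∀ x, HasDerivAt (fun x => p.eval x * om τ t x)
      (-((dV τ t * p - derivative p).eval x * om τ t x)) x := by
    intro x
    have h1 : HasDerivAt (om τ t) (Real.exp (-Vf τ t x) * (-dVf τ t x)) x := by
      have h2 := ((Vf_hasDeriv τ t x).neg).exp
      have h3 : om τ t = fun x => Real.exp (-Vf τ t x) := funext (om_eq τ t)
      rw [h3]
      exact h2
    refine ((p.hasDerivAt x).mul h1).congr_deriv ?_
    rw [om_eq]
    have : (dV τ t).eval x = dVf τ t x := by simp [dV, dVf]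
    simp only [eval_sub, eval_mul, this]
    ring
  have h := integral_eq_zero_of_hasDerivAt_of_integrable hd
    (int_poly τ t (dV τ t * p - derivative p)).neg (int_poly τ t p)
  rw [integral_neg, neg_eq_zero] at h
  rw [h, zero_div]

/-- pairs of consecutive orthogonal polynomials -/
noncomputable def S (L : ℝ[X] →ₗ[ℝ] ℝ) : ℕ → ℝ[X] × ℝ[X]
  | 0 => (1, X)
  | (n + 1) => ((S L n).2, X * (S L n).2
      - C (L ((S L n).2 * (S L n).2) / L ((S L n).1 * (S L n).1)) * (S L n).1)

/-- recurrence coefficients -/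
noncomputable def bet (L : ℝ[X] →ₗ[ℝ] ℝ) : ℕ → ℝ
  | 0 => 0
  | (n + 1) => L ((S L n).2 * (S L n).2) / L ((S L n).1 * (S L n).1)

lemma S_eq (L : ℝ[X] →ₗ[ℝ] ℝ) (n : ℕ) : S L n = (P (bet L) n, P (bet L) (n + 1)) := by
  induction n with
  | zero => rfl
  | succ n ih =>
    have h1 : S L (n + 1) = ((S L n).2, X * (S L n).2
      - C (L ((S L n).2 * (S L n).2) / L ((S L n).1 * (S L n).1)) * (S L n).1) := rfl
    have h2 : bet L (n + 1) = L ((S L n).2 * (S L n).2) / L ((S L n).1 * (S L n).1) := rfl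
    rw [h1, ← h2, ih, P_add_two]

lemma bet_succ (L : ℝ[X] →ₗ[ℝ] ℝ) (n : ℕ) : bet L (n + 1)
    = L (P (bet L) (n + 1) * P (bet L) (n + 1)) / L (P (bet L) n * P (bet L) n) := by
  have h2 : bet L (n + 1) = L ((S L n).2 * (S L n).2) / L ((S L n).1 * (S L n).1) := rfl
  rw [h2, S_eq]

lemma bet_pos (τ t : ℝ) (n : ℕ) : 0 < bet (Lom τ t) (n + 1) := by
  rw [bet_succ]
  exact div_pos (Lom_sq_pos τ t _ (P_monic _ _).ne_zero) (Lom_sq_pos τ t _ (P_monic _ _).ne_zero)

lemma bet_orth (τ t : ℝ) (n : ℕ) :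
    (∀ m < n, Lom τ t (P (bet (Lom τ t)) n * P (bet (Lom τ t)) m) = 0) ∧
    (∀ m < n + 1, Lom τ t (P (bet (Lom τ t)) (n + 1) * P (bet (Lom τ t)) m) = 0) := by
  set L := Lom τ t with hL
  set b := bet L with hb
  have hb0 : b 0 = 0 := rfl
  induction n with
  | zero =>
    refine ⟨by intro m hm; omega, ?_⟩
    intro m hm
    have : m = 0 := by omega
    subst this
    rw [P_one, P_zero, mul_one]
    apply Lom_odd
    simp
  | succ n ih =>
    obtain ⟨i1, i2⟩ := ih
    refine ⟨i2, ?_⟩
    intro m hm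
    have e : P b (n + 2) * P b m = P b (n + 1) * (X * P b m) - C (b (n + 1)) * (P b n * P b m) := by
      rw [P_add_two]; ring
    rw [show n + 1 + 1 = n + 2 from rfl, e, map_sub, C_mul_apply]
    rcases Nat.lt_or_ge m (n + 1) with h1 | h1
    · rw [X_mul_P b hb0 m, mul_add, map_add,
        show P b (n + 1) * (C (b m) * P b (m - 1)) = C (b m) * (P b (n + 1) * P b (m - 1)) by ring,
        C_mul_apply, i2 (m - 1) (by omega)]
      rcases Nat.lt_or_ge m n with h2 | h2
      · rw [i2 (m + 1) (by omega), i1 m h2]; ring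
      · have : m = n := by omega
        subst this
        have h3 : b (m + 1) * L (P b m * P b m) = L (P b (m + 1) * P b (m + 1)) := by
          rw [hb, bet_succ, ← hb]
          rw [div_mul_cancel₀]
          exact (Lom_sq_pos τ t _ (P_monic _ _).ne_zero).ne'
        rw [h3]; ring
    · have : m = n + 1 := by omega
      subst this
      have h3 : L (P b (n + 1) * (X * P b (n + 1))) = 0 := by
        apply Lom_odd
        rw [mul_comp, mul_comp, P_comp_neg, X_comp]
        have : (C ((-1 : ℝ) ^ (n + 1)) * C ((-1 : ℝ) ^ (n + 1)) : ℝ[X]) = 1 := by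
          rw [← map_mul, ← mul_pow]; simp
        linear_combination (-(P b (n + 1) * X * P b (n + 1))) * this
      have h4 : L (P b n * P b (n + 1)) = 0 := by
        rw [mul_comm]; exact i2 n (by omega)
      rw [h3, h4]; ring

lemma bet_isFun (τ t : ℝ) : IsFun (bet (Lom τ t)) (Lom τ t) := by
  constructor
  · exact Lom_one τ t
  · intro n
    have := (bet_orth τ t n).2 0 (by omega)
    rwa [P_zero, mul_one] at this

/-- the recurrence coefficients satisfy the string equation -/
theorem bet_string (τ t : ℝ) (n : ℕ) (hn : 1 ≤ n) : strLHS τ t (bet (Lom τ t)) n = n :=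
  (defect_eq_zero_iff (b := bet (Lom τ t)) rfl (bet_pos τ t) (bet_isFun τ t) τ t).2
    (Lom_defect τ t) n hn

/-- a positive solution of the string equation gives the weight functional. -/
theorem isFun_of_solution (τ t : ℝ) (b : ℕ → ℝ) (hb : b 0 = 0) (hpos : ∀ n, 0 < b (n + 1))
    (hE : ∀ n, 1 ≤ n → strLHS τ t b n = n) : IsFun b (Lom τ t) := by
  set a : ℕ → ℝ := fun n => Real.sqrt (b n) with ha
  have ha0 : a 0 = 0 := by simp [ha, hb]
  have hab : (fun n => a n ^ 2) = b := by
    funext n
    simp only [ha]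
    rw [Real.sq_sqrt]
    rcases n with _ | n
    · rw [hb]
    · exact (hpos n).le
  have hL : IsFun b (Lf a) := by
    have := Lf_isFun a ha0
    rwa [hab] at this
  have hdef := (defect_eq_zero_iff hb hpos hL τ t).1 hE
  choose w l hw hq using quad a ha0
  have H : Quad τ t (fun k => Lf a (X ^ k)) w l := by
    refine ⟨?_, ?_, ?_, hw, hq⟩
    · simp only [pow_zero]; exact hL.one
    · intro k; exact hL.odd_pow k
    · intro j
      have h1 := hdef (X ^ j)
      rw [defect_apply] at h1
      have e1 : dV τ t * X ^ j = C 6 * X ^ (j + 5) - C (4 * τ) * X ^ (j + 3)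
          - C (2 * t) * X ^ (j + 1) := by
        rw [dV]; ring
      rw [e1, map_sub, map_sub, C_mul_apply, C_mul_apply, C_mul_apply, derivative_X_pow,
        C_mul_apply] at h1
      linarith
  have hEq : Lf a = Lom τ t := by
    refine LinearMap.ext fun p => ?_
    rw [functional_eq H (Lf a) (fun k => rfl) p, Lom_apply]
  rw [← hEq]
  exact hL

lemma unique_b {b b' : ℕ → ℝ} (hb : b 0 = 0) (hb' : b' 0 = 0) 
    (hpos' : ∀ n, 0 < b' (n + 1)) {L : ℝ[X] →ₗ[ℝ] ℝ} (h1 : IsFun b L) (h2 : IsFun b' L) :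
    b = b' := by
  have key : ∀ n, b n = b' n ∧ P b n = P b' n ∧ P b (n + 1) = P b' (n + 1) ∧ h b n = h b' n := by
    intro n
    induction n with
    | zero => exact ⟨by rw [hb, hb'], rfl, rfl, by rw [h_zero, h_zero]⟩
    | succ n ih =>
      obtain ⟨i1, i2, i3, i4⟩ := ih
      have e1 : h b (n + 1) = h b' (n + 1) := by
        have g1 := h1.gram hb (n + 1) (n + 1)
        have g2 := h2.gram hb' (n + 1) (n + 1)
        rw [if_pos rfl] at g1 g2
        rw [← g1, ← g2, i3]
      have e2 : b (n + 1) = b' (n + 1) := by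
        rw [h_succ, h_succ, i4] at e1
        have hh : h b' n ≠ 0 := (Finset.prod_pos (fun i _ => hpos' i)).ne'
        exact mul_left_cancel₀ hh e1
      refine ⟨e2, i3, ?_, e1⟩
      rw [show n + 1 + 1 = n + 2 from rfl, P_add_two, P_add_two, i2, i3, e2]
  exact funext fun n => (key n).1

end Pool.Agent.Q162.Freud
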