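import Pool.Agent.Q162.Freud.Alg

namespace Pool.Agent.Q162.Freud

open Polynomial

/-- left side of the string equation (E) at index `n ≥ 1`. -/
def strLHS (τ t : ℝ) (b : ℕ → ℝ) (n : ℕ) : ℝ :=
  6 * b n * (b (n - 2) * b (n - 1) + b (n - 1) ^ 2 + 2 * b (n - 1) * b n
      + b (n - 1) * b (n + 1) + b n ^ 2 + 2 * b n * b (n + 1) + b (n + 1) ^ 2
      + b (n + 1) * b (n + 2))
    - 4 * τ * b n * (b (n - 1) + b n + b (n + 1)) - 2 * t * b n

/-- derivative of the potential `x^6 - τ x^4 - t x^2`. -/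
noncomputable def dV (τ t : ℝ) : ℝ[X] := C 6 * X ^ 5 - C (4 * τ) * X ^ 3 - C (2 * t) * X

/-- defect functional. -/
noncomputable def defect (τ t : ℝ) (L : ℝ[X] →ₗ[ℝ] ℝ) : ℝ[X] →ₗ[ℝ] ℝ :=
  L ∘ₗ (LinearMap.mulLeft ℝ (dV τ t)) - L ∘ₗ Polynomial.derivative

lemma defect_apply (τ t : ℝ) (L : ℝ[X] →ₗ[ℝ] ℝ) (p : ℝ[X]) :
    defect τ t L p = L (dV τ t * p) - L (derivative p) := rfl

lemma P_comp_neg (b : ℕ → ℝ) (n : ℕ) : (P b n).comp (-X) = C ((-1) ^ n) * P b n := by
  have key : ∀ n, (P b n).comp (-X) = C ((-1) ^ n) * P b n ∧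
      (P b (n + 1)).comp (-X) = C ((-1) ^ (n + 1)) * P b (n + 1) := by
    intro n
    induction n with
    | zero => simp [P_zero, P_one]
    | succ n ih =>
      refine ⟨ih.2, ?_⟩
      rw [P_add_two, sub_comp, mul_comp, mul_comp, ih.1, ih.2, X_comp, C_comp]
      simp only [pow_succ, map_mul, map_neg, map_one]
      ring
  exact (key n).1

/-- The functional is even. -/
lemma IsFun.comp_neg {b : ℕ → ℝ} {L : ℝ[X] →ₗ[ℝ] ℝ} (hL : IsFun b L) (p : ℝ[X]) :
    L (p.comp (-X)) = L p := by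
  let L' : ℝ[X] →ₗ[ℝ] ℝ := L ∘ₗ (aeval (-X : ℝ[X]) : ℝ[X] →ₐ[ℝ] ℝ[X]).toLinearMap
  have hL' : IsFun b L' := by
    constructor
    · show L ((1 : ℝ[X]).comp (-X)) = 1
      rw [one_comp, hL.one]
    · intro n
      show L ((P b (n + 1)).comp (-X)) = 0
      rw [P_comp_neg, C_mul_apply, hL.P_pos, mul_zero]
  have := hL'.unique hL
  show L' p = L p
  rw [this]

lemma IsFun.odd {b : ℕ → ℝ} {L : ℝ[X] →ₗ[ℝ] ℝ} (hL : IsFun b L) (p : ℝ[X])
    (hp : p.comp (-X) = -p) : L p = 0 := by
  have := hL.comp_neg p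
  rw [hp, map_neg] at this
  linarith

lemma IsFun.odd_pow {b : ℕ → ℝ} {L : ℝ[X] →ₗ[ℝ] ℝ} (hL : IsFun b L) (k : ℕ) :
    L (X ^ (2 * k + 1)) = 0 := by
  apply hL.odd
  rw [pow_comp, X_comp, Odd.neg_pow ⟨k, rfl⟩]

lemma dV_comp (τ t : ℝ) : (dV τ t).comp (-X) = -dV τ t := by
  simp only [dV, sub_comp, mul_comp, C_comp, pow_comp, X_comp]
  ring

/-- `defect` vanishes on even polynomials. -/
lemma defect_even {b : ℕ → ℝ} {L : ℝ[X] →ₗ[ℝ] ℝ} (hL : IsFun b L) (τ t : ℝ) (p : ℝ[X])
    (hp : p.comp (-X) = p) : defect τ t L p = 0 := by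
  rw [defect_apply, hL.odd, hL.odd, sub_zero]
  · have h1 := congrArg derivative hp
    rw [derivative_comp] at h1
    simp only [derivative_neg, derivative_X] at h1
    linear_combination -h1
  · rw [mul_comp, dV_comp, hp]; ring

lemma L_mul_lower {b : ℕ → ℝ} (hb : b 0 = 0) {L : ℝ[X] →ₗ[ℝ] ℝ} (hL : IsFun b L) (n : ℕ)
    (q : ℝ[X]) (hq : q.degree < n) : L (P b n * q) = 0 := by
  refine lin_ext_lt (P b) (P_monic b) (P_natDegree b) (L ∘ₗ LinearMap.mulLeft ℝ (P b n)) n ?_ q hq
  intro m hm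
  show L (P b n * P b m) = 0
  rw [hL.gram hb, if_neg (by omega)]

lemma P_coeff_self (b : ℕ → ℝ) (n : ℕ) : (P b n).coeff n = 1 := by
  have := P_monic b n
  rw [Monic, leadingCoeff, P_natDegree] at this
  exact this

lemma L_deriv1 {b : ℕ → ℝ} (hb : b 0 = 0) {L : ℝ[X] →ₗ[ℝ] ℝ} (hL : IsFun b L) (n : ℕ) :
    L (derivative (P b (n + 1)) * P b n) = (n + 1) * h b n := by
  have h1 : L (P b n * (derivative (P b (n + 1)) - C ((n : ℝ) + 1) * P b n)) = 0 := by
    apply L_mul_lower hb hL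
    rw [degree_lt_iff_coeff_zero]
    intro m hm
    rw [coeff_sub, coeff_C_mul, coeff_derivative]
    rcases hm.eq_or_lt with rfl | hlt
    · rw [P_coeff_self, P_coeff_self]; ring
    · rw [coeff_eq_zero_of_natDegree_lt (p := P b (n + 1)) (by rw [P_natDegree]; omega),
        coeff_eq_zero_of_natDegree_lt (p := P b n) (by rw [P_natDegree]; omega)]
      ring
  have h2 : derivative (P b (n + 1)) * P b n
      = P b n * (derivative (P b (n + 1)) - C ((n : ℝ) + 1) * P b n)
        + C ((n : ℝ) + 1) * (P b n * P b n) := by ring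
  rw [h2, map_add, h1, C_mul_apply, hL.gram hb, if_pos rfl, zero_add]

lemma L_deriv2 {b : ℕ → ℝ} (hb : b 0 = 0) {L : ℝ[X] →ₗ[ℝ] ℝ} (hL : IsFun b L) (n : ℕ) :
    L (P b (n + 1) * derivative (P b n)) = 0 := by
  apply L_mul_lower hb hL
  refine lt_of_le_of_lt (degree_derivative_le) ?_
  rw [P_degree]
  exact_mod_cast Nat.lt_succ_self n

lemma X2 (b : ℕ → ℝ) (hb : b 0 = 0) (n : ℕ) :
    X ^ 2 * P b n = P b (n + 2) + C (b (n + 1) + b n) * P b n
      + C (b n * b (n - 1)) * P b (n - 2) := by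
  have h1 := X_mul_P b hb n
  have h2 := X_mul_P b hb (n + 1)
  have h3 : C (b n) * (X * P b (n - 1)) = C (b n) * (P b n + C (b (n - 1)) * P b (n - 2)) := by
    rcases n with _ | n
    · simp [hb]
    · have h := X_mul_P b hb n
      simp only [Nat.add_sub_cancel, Nat.reduceSubDiff]
      rw [h]
  simp only [Nat.add_sub_cancel] at h2
  rw [map_add, map_mul]
  linear_combination X * h1 + h2 + h3

lemma X3 (b : ℕ → ℝ) (hb : b 0 = 0) (n : ℕ) :
    X ^ 3 * P b (n + 1) = P b (n + 4) + C (b (n + 3) + b (n + 2) + b (n + 1)) * P b (n + 2)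
      + C (b (n + 1) * (b (n + 2) + b (n + 1) + b n)) * P b n
      + C (b (n + 1) * b n * b (n - 1)) * P b (n - 2) := by
  have h1 := X2 b hb (n + 1)
  have h2 := X_mul_P b hb (n + 3)
  have h4 := X_mul_P b hb (n + 1)
  have h3 : C (b n) * (X * P b (n - 1)) = C (b n) * (P b n + C (b (n - 1)) * P b (n - 2)) := by
    rcases n with _ | n
    · simp [hb]
    · have h := X_mul_P b hb n
      simp only [Nat.add_sub_cancel, Nat.reduceSubDiff]
      rw [h]
  simp only [Nat.add_sub_cancel, Nat.reduceSubDiff] at h1 h2 h4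
  simp only [map_add, map_mul] at h1 ⊢
  linear_combination X * h1 + h2 + (C (b (n + 2)) + C (b (n + 1))) * h4 + C (b (n + 1)) * h3

/-- value of the defect functional at `P (n+1) * P n`. -/
lemma defect_PP {b : ℕ → ℝ} (hb : b 0 = 0) {L : ℝ[X] →ₗ[ℝ] ℝ} (hL : IsFun b L) (τ t : ℝ)
    (n : ℕ) :
    defect τ t L (P b (n + 1) * P b n) = h b n * (strLHS τ t b (n + 1) - (n + 1)) := by
  have hder : L (derivative (P b (n + 1) * P b n)) = (n + 1) * h b n := by
    rw [derivative_mul, map_add, L_deriv1 hb hL, L_deriv2 hb hL, add_zero]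
  have g := hL.gram hb
  have e0 : L (X * (P b (n + 1) * P b n)) = b (n + 1) * h b n := by
    have : X * (P b (n + 1) * P b n)
        = P b (n + 1) * P b (n + 1) + C (b n) * (P b (n + 1) * P b (n - 1)) := by
      have h1 := X_mul_P b hb n
      linear_combination (P b (n + 1)) * h1
    rw [this, map_add, C_mul_apply, g, g, if_pos rfl, if_neg (by omega), h_succ]
    ring
  have hz : b n * b (n - 1) * L (P b (n - 2) * P b n) = 0 := by
    rcases n with _ | n
    · rw [hb]; ring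
    · rw [g, if_neg (by omega), mul_zero]
  have hz2 : b n * b (n - 1) * L (P b (n - 2) * P b (n + 2)) = 0 := by
    rw [g, if_neg (by omega), mul_zero]
  have e1 : L (X ^ 3 * (P b (n + 1) * P b n)) = b (n + 1) * (b (n + 2) + b (n + 1) + b n) * h b n := by
    have : X ^ 3 * (P b (n + 1) * P b n)
        = P b (n + 4) * P b n + C (b (n + 3) + b (n + 2) + b (n + 1)) * (P b (n + 2) * P b n)
        + C (b (n + 1) * (b (n + 2) + b (n + 1) + b n)) * (P b n * P b n)
        + C (b (n + 1) * b n * b (n - 1)) * (P b (n - 2) * P b n) := by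
      have h1 := X3 b hb n
      linear_combination (P b n) * h1
    rw [this, map_add, map_add, map_add, C_mul_apply, C_mul_apply, C_mul_apply, g (n + 4), g (n + 2),
      g n, if_pos rfl, if_neg (by omega), if_neg (by omega)]
    linear_combination b (n + 1) * hz
  have hz3 : (b n * b (n - 1)) ^ 2 * L (P b (n - 2) * P b (n - 2)) = b n * b (n - 1) * h b n := by
    rcases n with _ | n
    · rw [hb]; ring
    · rcases n with _ | n
      · simp [hb]
      · simp only [Nat.add_sub_cancel, Nat.reduceSubDiff]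
        rw [g, if_pos rfl, h_succ b (n + 1), h_succ b n]
        ring
  have hz1 : b n * b (n - 1) * L (P b n * P b (n - 2)) = 0 := by
    rw [mul_comm (P b n)]; exact hz
  have e2 : L (X ^ 5 * (P b (n + 1) * P b n)) = h b n * (b (n + 1) * (
      b (n + 2) * (b (n + 1) + b (n + 2) + b (n + 3))
      + (b (n + 2) + b (n + 1) + b n) * (b (n + 1) + b n) + b n * b (n - 1))) := by
    have h1 := X3 b hb n
    have h2 := X2 b hb n
    have : X ^ 5 * (P b (n + 1) * P b n)
        = P b (n + 4) * P b (n + 2) + C (b (n + 1) + b n) * (P b (n + 4) * P b n)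
          + C (b n * b (n - 1)) * (P b (n + 4) * P b (n - 2))
        + C (b (n + 3) + b (n + 2) + b (n + 1)) * (P b (n + 2) * P b (n + 2))
        + C ((b (n + 3) + b (n + 2) + b (n + 1)) * (b (n + 1) + b n)) * (P b (n + 2) * P b n)
        + C ((b (n + 3) + b (n + 2) + b (n + 1)) * (b n * b (n - 1))) * (P b (n + 2) * P b (n - 2))
        + C (b (n + 1) * (b (n + 2) + b (n + 1) + b n)) * (P b n * P b (n + 2))
        + C (b (n + 1) * (b (n + 2) + b (n + 1) + b n) * (b (n + 1) + b n)) * (P b n * P b n)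
        + C (b (n + 1) * (b (n + 2) + b (n + 1) + b n) * (b n * b (n - 1))) * (P b n * P b (n - 2))
        + C (b (n + 1) * b n * b (n - 1)) * (P b (n - 2) * P b (n + 2))
        + C (b (n + 1) * b n * b (n - 1) * (b (n + 1) + b n)) * (P b (n - 2) * P b n)
        + C (b (n + 1) * b n * b (n - 1) * (b n * b (n - 1))) * (P b (n - 2) * P b (n - 2)) := by
      have h5 : X ^ 5 * (P b (n + 1) * P b n) = (X ^ 3 * P b (n + 1)) * (X ^ 2 * P b n) := by ring
      rw [h5, h1, h2]
      simp only [map_add, map_mul]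
      ring
    rw [this]
    simp only [map_add L, C_mul_apply]
    have t1 : L (P b (n + 4) * P b (n + 2)) = 0 := by rw [g, if_neg (by omega)]
    have t2 : L (P b (n + 4) * P b n) = 0 := by rw [g, if_neg (by omega)]
    have t3 : L (P b (n + 4) * P b (n - 2)) = 0 := by rw [g, if_neg (by omega)]
    have t4 : L (P b (n + 2) * P b (n + 2)) = h b n * b (n + 1) * b (n + 2) := by
      rw [g, if_pos rfl, h_succ, h_succ]
    have t5 : L (P b (n + 2) * P b n) = 0 := by rw [g, if_neg (by omega)]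
    have t6 : L (P b (n + 2) * P b (n - 2)) = 0 := by rw [g, if_neg (by omega)]
    have t7 : L (P b n * P b (n + 2)) = 0 := by rw [g, if_neg (by omega)]
    have t8 : L (P b n * P b n) = h b n := by rw [g, if_pos rfl]
    have t9 : L (P b (n - 2) * P b (n + 2)) = 0 := by rw [g, if_neg (by omega)]
    rw [t1, t2, t3, t4, t5, t6, t7, t8, t9]
    linear_combination b (n + 1) * (b (n + 2) + b (n + 1) + b n) * hz1
      + b (n + 1) * (b (n + 1) + b n) * hz + b (n + 1) * hz3
  have hsplit : L (dV τ t * (P b (n + 1) * P b n)) = 6 * L (X ^ 5 * (P b (n + 1) * P b n))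
      - 4 * τ * L (X ^ 3 * (P b (n + 1) * P b n)) - 2 * t * L (X * (P b (n + 1) * P b n)) := by
    have : dV τ t * (P b (n + 1) * P b n) = C 6 * (X ^ 5 * (P b (n + 1) * P b n))
      - C (4 * τ) * (X ^ 3 * (P b (n + 1) * P b n)) - C (2 * t) * (X * (P b (n + 1) * P b n)) := by
      rw [dV]; ring
    rw [this, map_sub, map_sub, C_mul_apply, C_mul_apply, C_mul_apply]
  rw [defect_apply, hder, hsplit, e0, e1, e2, strLHS]
  simp only [Nat.add_sub_cancel, Nat.reduceSubDiff]
  rw [show n + 1 + 1 = n + 2 from rfl, show n + 1 + 2 = n + 3 from rfl]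
  ring

/-- (E) is equivalent to the vanishing of the defect functional. -/
theorem defect_eq_zero_iff {b : ℕ → ℝ} (hb : b 0 = 0) (hpos : ∀ n, 0 < b (n + 1))
    {L : ℝ[X] →ₗ[ℝ] ℝ} (hL : IsFun b L) (τ t : ℝ) :
    (∀ n, 1 ≤ n → strLHS τ t b n = n) ↔ ∀ p, defect τ t L p = 0 := by
  have hh : ∀ n, 0 < h b n := fun n => Finset.prod_pos (fun i _ => hpos i)
  constructor
  · intro hE p
    refine lin_ext (fun n => P b (n - n / 2) * P b (n / 2)) ?_ ?_ _ ?_ p
    · intro n; exact (P_monic b _).mul (P_monic b _)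
    · intro n
      rw [(P_monic b _).natDegree_mul (P_monic b _), P_natDegree, P_natDegree]
      omega
    · intro n
      rcases Nat.even_or_odd' n with ⟨k, rfl | rfl⟩
      · show defect τ t L (P b (2 * k - 2 * k / 2) * P b (2 * k / 2)) = 0
        rw [show 2 * k - 2 * k / 2 = k by omega, show 2 * k / 2 = k by omega]
        apply defect_even hL
        rw [mul_comp, P_comp_neg]
        have : (C ((-1 : ℝ) ^ k) * C ((-1 : ℝ) ^ k) : ℝ[X]) = 1 := by
          rw [← map_mul, ← mul_pow]; simp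
        linear_combination (P b k * P b k) * this
      · show defect τ t L (P b (2 * k + 1 - (2 * k + 1) / 2) * P b ((2 * k + 1) / 2)) = 0
        rw [show 2 * k + 1 - (2 * k + 1) / 2 = k + 1 by omega,
          show (2 * k + 1) / 2 = k by omega, defect_PP hb hL, hE (k + 1) (by omega)]
        push_cast; ring
  · intro hM n hn
    obtain ⟨k, rfl⟩ : ∃ k, n = k + 1 := ⟨n - 1, by omega⟩
    have h1 := defect_PP hb hL τ t k
    rw [hM] at h1
    have h2 := hh k
    have h3 : strLHS τ t b (k + 1) - (k + 1) = 0 := by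
      rcases mul_eq_zero.1 h1.symm with h4 | h4
      · exact absurd h4 h2.ne'
      · exact h4
    push_cast
    linarith

end Pool.Agent.Q162.Freud
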